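import Mathlib

/-!
# Period matrices of smooth projective varieties over the field of algebraic numbers and de
# Rham-Betti classes on their products
-/

namespace Pool.Agent.TH119.DR

open Matrix

/-- The standard symplectic matrix. -/
def Sp (g : ℕ) : Matrix (Fin g ⊕ Fin g) (Fin g ⊕ Fin g) ℂ := Matrix.fromBlocks 0 1 (-1) 0

/-- The periods of (a direct summand of) the cohomology group `H^k(X)` of odd degree `k`, of
dimension `2 g`, of a smooth projective variety `X` over the field of algebraic numbers: the entry
`P z x` is the integral of the `z`-th element of a symplectic basis of the algebraic de Rham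
cohomology over the `x`-th element of a symplectic basis of the rational homology. The relations of
Riemann say that `P` respects the polarizations up to a factor `lam` (a power of `2 π i` times an
algebraic number). -/
structure Periods (g : ℕ) where
  /-- the period matrix -/
  P : Matrix (Fin g ⊕ Fin g) (Fin g ⊕ Fin g) ℂ
  /-- the period of the Tate twist -/
  lam : ℂ
  lam_ne : lam ≠ 0
  riemann : P * Sp g * Pᵀ = lam • Sp g

variable {ι : Type} {g : ι → ℕ}

/-- The basis of the direct sum of the cohomology groups (and of the dual homology groups). -/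
abbrev Bas (g : ι → ℕ) : Type := Σ i, (Fin (g i) ⊕ Fin (g i))

/-- The period matrix of the direct sum. -/
def perMat [DecidableEq ι] (V : ∀ i, Periods (g i)) : Matrix (Bas g) (Bas g) ℂ :=
  Matrix.blockDiagonal' fun i => (V i).P

/-- The rational multilinear form on the homology with the coefficients `t`, that is, the rational
class `t` in `⨂_k H(X_{i k})` for all choices of `i k`, is a de Rham-Betti class (of some twist):
up to a complex factor `μ` (for instance a power of `2 π i`) it is an algebraic de Rham class, with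
the coefficients `t'` with respect to the basis of the algebraic de Rham cohomology. -/
def IsDeRhamBetti [Fintype ι] [DecidableEq ι] (V : ∀ i, Periods (g i)) {κ : Type} [Fintype κ]
    [DecidableEq κ] (t : (κ → Bas g) → ℚ) : Prop :=
  ∃ (μ : ℂ) (t' : (κ → Bas g) → ℂ), (∀ J, IsAlgebraic ℚ (t' J)) ∧
    ∀ I, ((t I : ℚ) : ℂ) = μ * ∑ J : κ → Bas g, (∏ k, perMat V (J k) (I k)) * t' J

/-- The periods satisfy no quadratic relation of the form
`∑ i, (lam i)⁻¹ * ∑ b i x y * c i z w * P i z x * P i w y = 0` with symmetric matrices `b i` of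
rational numbers and `c i` of algebraic numbers, except the trivial ones, where `b i = 0` or
`c i = 0` for all `i`. -/
def NoQuadraticRelation [Fintype ι] (V : ∀ i, Periods (g i)) : Prop :=
  ∀ (b : ∀ i, Matrix (Fin (g i) ⊕ Fin (g i)) (Fin (g i) ⊕ Fin (g i)) ℚ)
    (c : ∀ i, Matrix (Fin (g i) ⊕ Fin (g i)) (Fin (g i) ⊕ Fin (g i)) ℂ),
    (∀ i, (b i)ᵀ = b i) → (∀ i, (c i)ᵀ = c i) → (∀ i z w, IsAlgebraic ℚ (c i z w)) →
    ∑ i, (V i).lam⁻¹ * ∑ x, ∑ y, ((b i x y : ℚ) : ℂ) * ((V i).Pᵀ * c i * (V i).P) x y = 0 →
    ∀ i, b i = 0 ∨ c i = 0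

/-- The symplectic form of the `i`-th summand, the class of the polarization in
`H(X_i) ⊗ H(X_i)`. -/
def pol [DecidableEq ι] (i : ι) (x y : Bas g) : ℚ :=
  if x.1 = i ∧ y = ⟨x.1, x.2.swap⟩ then Sum.elim (fun _ => 1) (fun _ => -1) x.2 else 0

/-- The rational span of the products of polarization classes. -/
def PolSpan [DecidableEq ι] (g : ι → ℕ) (κ : Type) : Submodule ℚ ((κ → Bas g) → ℚ) :=
  Submodule.span ℚ {F | ∃ (m : ℕ) (e : Fin m × Fin 2 ≃ κ) (c : Fin m → ι),
    F = fun I => ∏ s, pol (c s) (I (e (s, 0))) (I (e (s, 1)))}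

end Pool.Agent.TH119.DR
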