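import Mathlib
import Pool.Agent.W437.HD.Deriv

/-!
# Subspaces defined over a subfield, and derivations of the complex numbers
-/

namespace Pool.Agent.TH119.DR

open Finset Module

/-- A complex subspace of `ℂ^α` is defined over the subfield `K` if it is spanned by its vectors
with coordinates in `K`. -/
def DefOver (K : Subfield ℂ) {α : Type*} (W : Submodule ℂ (α → ℂ)) : Prop :=
  W ≤ Submodule.span ℂ {w | w ∈ W ∧ ∀ a, w a ∈ K}

/-- Coordinates of finitely many complex numbers over a subfield. -/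
theorem exists_coords (K : Subfield ℂ) (Z : Finset ℂ) :
    ∃ (J : Type) (s : Finset J) (e : J → ℂ) (f : J → ℂ →ₗ[K] ℂ), (∀ j z, f j z ∈ K) ∧
      ∀ z ∈ Z, z = ∑ j ∈ s, e j * f j z := by
  classical
  let b := Basis.ofVectorSpace K ℂ
  refine ⟨Basis.ofVectorSpaceIndex K ℂ, Z.biUnion fun z => (b.repr z).support, fun j => b j,
    fun j => (Algebra.linearMap K ℂ) ∘ₗ b.coord j, fun j z => (b.coord j z).2, fun z hz => ?_⟩
  have h1 := b.linearCombination_repr z
  rw [Finsupp.linearCombination_apply, Finsupp.sum_of_support_subset (b.repr z)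
    (Finset.subset_biUnion_of_mem (fun z => (b.repr z).support) hz) (fun i a => a • b i)
    (fun i _ => zero_smul _ _)] at h1
  conv_lhs => rw [← h1]
  refine Finset.sum_congr rfl fun j _ => ?_
  rw [mul_comm]
  rfl

variable {K : Subfield ℂ}

theorem lin_mul (f : ℂ →ₗ[K] ℂ) {x : ℂ} (hx : x ∈ K) (z : ℂ) : f (x * z) = x * f z :=
  f.map_smul (⟨x, hx⟩ : K) z

theorem lin_mul' (f : ℂ →ₗ[K] ℂ) {x : ℂ} (hx : x ∈ K) (z : ℂ) : f (z * x) = f z * x := by
  rw [mul_comm, lin_mul f hx, mul_comm]

/-- A subspace defined over `K` is stable under `K`-linear maps of `ℂ`. -/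
theorem DefOver.map {α : Type*} {W : Submodule ℂ (α → ℂ)} (h : DefOver K W) (f : ℂ →ₗ[K] ℂ)
    {w : α → ℂ} (hw : w ∈ W) : (fun a => f (w a)) ∈ W := by
  have h1 := h hw
  revert f
  clear hw
  induction h1 using Submodule.span_induction with
  | mem w h2 =>
    intro f
    have h3 : (fun a => f (w a)) = f 1 • w := by
      funext a
      have h4 := lin_mul f (h2.2 a) 1
      rw [mul_one] at h4
      rw [h4, Pi.smul_apply, smul_eq_mul, mul_comm]
    rw [h3]
    exact W.smul_mem _ h2.1
  | zero =>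
    intro f
    simp only [Pi.zero_apply, map_zero]
    exact W.zero_mem
  | add x y _ _ hx hy =>
    intro f
    have h3 : (fun a => f ((x + y) a)) = (fun a => f (x a)) + fun a => f (y a) := by
      funext a
      simp
    rw [h3]
    exact W.add_mem (hx f) (hy f)
  | smul c x _ hx =>
    intro f
    exact hx (f ∘ₗ (LinearMap.mulLeft K c))

/-- A subspace which is stable under `K`-linear maps of `ℂ` is defined over `K`. -/
theorem defOver_of_map {α : Type*} [Finite α] {W : Submodule ℂ (α → ℂ)}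
    (h : ∀ (f : ℂ →ₗ[K] ℂ), ∀ w ∈ W, (fun a => f (w a)) ∈ W) : DefOver K W := by
  classical
  have := Fintype.ofFinite α
  intro w hw
  obtain ⟨J, s, e, f, hf, hz⟩ := exists_coords K (Finset.univ.image w)
  have h1 : w = ∑ j ∈ s, e j • fun a => f j (w a) := by
    funext a
    rw [Finset.sum_apply]
    exact hz (w a) (Finset.mem_image_of_mem _ (Finset.mem_univ a))
  rw [h1]
  exact Submodule.sum_mem _ fun j _ => Submodule.smul_mem _ _
    (Submodule.subset_span ⟨h (f j) w hw, fun a => hf j _⟩)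

/-- The same for matrices. -/
theorem mat_coords {α β : Type*} [Finite α] [Finite β] (L : Submodule ℂ (Matrix α β ℂ))
    (h : ∀ (f : ℂ →ₗ[K] ℂ), ∀ X ∈ L, X.map f ∈ L) {X : Matrix α β ℂ} (hX : X ∈ L) :
    X ∈ Submodule.span ℂ {Y | Y ∈ L ∧ ∀ a b, Y a b ∈ K} := by
  classical
  have := Fintype.ofFinite α
  have := Fintype.ofFinite β
  obtain ⟨J, s, e, f, hf, hz⟩ := exists_coords K (Finset.univ.image fun p : α × β => X p.1 p.2)
  have h1 : X = ∑ j ∈ s, e j • X.map (f j) := by
    ext a b
    rw [Matrix.sum_apply]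
    exact hz (X a b) (Finset.mem_image_of_mem (fun p : α × β => X p.1 p.2) (Finset.mem_univ (a, b)))
  rw [h1]
  exact Submodule.sum_mem _ fun j _ => Submodule.smul_mem _ _
    (Submodule.subset_span ⟨h (f j) X hX, fun a b => hf j _⟩)

/-! ### Derivations -/

/-- Derivations vanish on algebraic numbers. -/
theorem deriv_alg (δ : Derivation ℚ ℂ ℂ) {x : ℂ} (hx : IsAlgebraic ℚ x) : δ x = 0 := by
  have hint : IsIntegral ℚ x := hx.isIntegral
  have h1 := Derivation.map_aeval δ (minpoly ℚ x) x
  rw [minpoly.aeval, map_zero, smul_eq_mul] at h1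
  have h2 : Polynomial.aeval x (Polynomial.derivative (minpoly ℚ x)) ≠ 0 :=
    ((minpoly.irreducible hint).separable).aeval_derivative_ne_zero (minpoly.aeval ℚ x)
  exact (mul_eq_zero.1 h1.symm).resolve_left h2

/-- A derivation as a linear map over a field of algebraic numbers. -/
noncomputable def derK (δ : Derivation ℚ ℂ ℂ) (K : Subfield ℂ) (hK : ∀ x ∈ K, IsAlgebraic ℚ x) :
    ℂ →ₗ[K] ℂ where
  toFun z := δ z
  map_add' x y := map_add δ x y
  map_smul' c x := by
    change δ ((c : ℂ) * x) = (c : ℂ) * δ x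
    rw [Derivation.leibniz, deriv_alg δ (hK _ c.2), smul_zero, add_zero, smul_eq_mul]

/-- There is a derivation which does not vanish on a given transcendental number. -/
theorem exists_deriv {x : ℂ} (hx : ¬ IsAlgebraic ℚ x) : ∃ δ : Derivation ℚ ℂ ℂ, δ x ≠ 0 := by
  have h1 : AlgebraicIndependent ℚ (fun _ : Unit => x) := by
    rw [algebraicIndependent_unique_type_iff]
    exact hx
  obtain ⟨δ, hδ⟩ := Pool.Agent.W437.HD.exists_derivation h1 (fun _ => 1)
  exact ⟨δ, by rw [hδ ()]; exact one_ne_zero⟩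

end Pool.Agent.TH119.DR
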