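import Mathlib
import Pool.Agent.W437.HK.Act
import Pool.Agent.TH119.DR.Rat

/-!
# Multilinear forms and period matrices
-/

set_option linter.unusedSectionVars false

namespace Pool.Agent.TH119.DR

open Finset Matrix Pool.Agent.W437.HK

variable {R B κ : Type*} [Fintype B] [DecidableEq B] [Fintype R] [DecidableEq R] [Fintype κ]
  [DecidableEq κ]

/-- The pullback of a form: the form with the coefficients `c` in the de Rham basis has the
coefficients `pull E c` in the Betti basis. -/
def pull {F : Type*} [Field F] (E : Matrix R B F) (c : (κ → R) → F) : (κ → B) → F :=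
  fun I => ∑ J : κ → R, (∏ k, E (J k) (I k)) * c J

section

variable {F : Type*} [Field F]

theorem evalF_pull (E : Matrix R B F) (c : (κ → R) → F) (x : κ → B → F) :
    evalF (pull E c) x = evalF c (fun k => E *ᵥ x k) := by
  unfold evalF pull
  simp only [Finset.sum_mul]
  rw [Finset.sum_comm]
  refine Finset.sum_congr rfl fun J _ => ?_
  have h1 : ∏ k, (E *ᵥ x k) (J k) = ∑ I : κ → B, ∏ k, E (J k) (I k) * x k (I k) := by
    simp only [mulVec, dotProduct]
    rw [Finset.prod_univ_sum, Fintype.piFinset_univ]
  rw [h1, Finset.mul_sum]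
  refine Finset.sum_congr rfl fun I _ => ?_
  rw [Finset.prod_mul_distrib]
  ring

theorem evalF_ext {c c' : (κ → B) → F} (h : ∀ x, evalF c x = evalF c' x) : c = c' := by
  funext I
  rw [← evalF_single c I, h, evalF_single]

theorem act_pull {E : Matrix R B F} {X : Matrix B B F} {Y : Matrix R R F} (h : E * X = Y * E)
    (c : (κ → R) → F) : act X (pull E c) = pull E (act Y c) := by
  refine evalF_ext fun x => ?_
  rw [evalF_act, evalF_pull, evalF_act]
  refine Finset.sum_congr rfl fun k _ => ?_
  rw [evalF_pull]
  congr 1
  funext l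
  by_cases hl : l = k
  · subst hl
    rw [Function.update_self, Function.update_self, mulVec_mulVec, mulVec_mulVec, h]
  · rw [Function.update_of_ne hl, Function.update_of_ne hl]

theorem pull_pull {S : Type*} [Fintype S] [DecidableEq S] (E : Matrix R B F) (E' : Matrix B S F)
    (c : (κ → R) → F) : pull E' (pull E c) = pull (E * E') c := by
  refine evalF_ext fun x => ?_
  rw [evalF_pull, evalF_pull, evalF_pull]
  congr 1
  funext k
  rw [mulVec_mulVec]

theorem pull_one (c : (κ → B) → F) : pull (1 : Matrix B B F) c = c := by
  refine evalF_ext fun x => ?_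
  rw [evalF_pull]
  congr 1
  funext k
  rw [one_mulVec]

/-- The pullback as a linear map. -/
def pullL (E : Matrix R B F) : ((κ → R) → F) →ₗ[F] ((κ → B) → F) where
  toFun := pull E
  map_add' c d := by
    funext I
    simp [pull, mul_add, Finset.sum_add_distrib]
  map_smul' a c := by
    funext I
    simp only [pull, Pi.smul_apply, smul_eq_mul, Finset.mul_sum, RingHom.id_apply]
    exact Finset.sum_congr rfl fun J _ => by ring

theorem pullL_apply (E : Matrix R B F) (c : (κ → R) → F) : pullL E c = pull E c := rfl

/-- The action as a linear map in the form. -/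
def actR (X : Matrix B B F) : ((κ → B) → F) →ₗ[F] ((κ → B) → F) where
  toFun c := act X c
  map_add' c d := act_add_right X c d
  map_smul' a c := act_smul_right a X c

theorem actR_apply (X : Matrix B B F) (c : (κ → B) → F) : actR X c = act X c := rfl

end

/-- The derivative of a product. -/
theorem deriv_prod (δ : Derivation ℚ ℂ ℂ) (s : Finset κ) (f : κ → ℂ) :
    δ (∏ k ∈ s, f k) = ∑ k ∈ s, δ (f k) * ∏ l ∈ s.erase k, f l := by
  induction s using Finset.induction_on with
  | empty => simp
  | insert a s ha ih =>
    rw [Finset.prod_insert ha, Derivation.leibniz, ih, Finset.sum_insert ha,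
      Finset.erase_insert ha, smul_eq_mul, smul_eq_mul, Finset.mul_sum, add_comm]
    congr 1
    · ring
    · refine Finset.sum_congr rfl fun k hk => ?_
      have hka : k ≠ a := by
        rintro rfl
        exact ha hk
      rw [Finset.erase_insert_of_ne hka.symm, Finset.prod_insert (by
        intro h
        exact ha (Finset.mem_of_mem_erase h))]
      ring

/-- The derivative of a form with constant coefficients in the de Rham basis. -/
theorem deriv_pull (δ : Derivation ℚ ℂ ℂ) {E : Matrix R B ℂ} {X : Matrix B B ℂ}
    (hX : E * X = E.map δ) {c : (κ → R) → ℂ} (hc : ∀ J, δ (c J) = 0) :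
    (fun I => δ (pull E c I)) = act X (pull E c) := by
  funext I
  have h1 : δ (pull E c I) = ∑ J : κ → R, (∑ k, δ (E (J k) (I k)) *
      ∏ l ∈ Finset.univ.erase k, E (J l) (I l)) * c J := by
    unfold pull
    rw [map_sum]
    refine Finset.sum_congr rfl fun J _ => ?_
    rw [Derivation.leibniz, hc, smul_zero, zero_add, deriv_prod, smul_eq_mul, mul_comm]
  have h2 : ∀ (J : κ → R) (k : κ), ∑ b, X b (I k) *
      (∏ l, E (J l) (Function.update I k b l)) * c J =
      δ (E (J k) (I k)) * (∏ l ∈ Finset.univ.erase k, E (J l) (I l)) * c J := by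
    intro J k
    have h3 : ∀ b, ∏ l, E (J l) (Function.update I k b l) =
        E (J k) b * ∏ l ∈ Finset.univ.erase k, E (J l) (I l) := by
      intro b
      rw [← Finset.mul_prod_erase _ _ (Finset.mem_univ k), Function.update_self]
      congr 1
      refine Finset.prod_congr rfl fun l hl => ?_
      rw [Function.update_of_ne (Finset.ne_of_mem_erase hl)]
    have h4 : δ (E (J k) (I k)) = ∑ b, E (J k) b * X b (I k) := by
      have h5 := congrFun (congrFun hX (J k)) (I k)
      rw [Matrix.mul_apply, Matrix.map_apply] at h5
      exact h5.symm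
    rw [h4, Finset.sum_mul, Finset.sum_mul]
    refine Finset.sum_congr rfl fun b _ => ?_
    rw [h3]
    ring
  rw [h1]
  unfold act pull
  simp only [Finset.mul_sum, Finset.sum_mul, ← mul_assoc]
  have h6 : ∀ k : κ, ∑ b, ∑ J : κ → R, X b (I k) *
      (∏ l, E (J l) (Function.update I k b l)) * c J = ∑ J : κ → R,
      δ (E (J k) (I k)) * (∏ l ∈ Finset.univ.erase k, E (J l) (I l)) * c J := by
    intro k
    rw [Finset.sum_comm]
    exact Finset.sum_congr rfl fun J _ => h2 J k
  rw [Finset.sum_congr rfl fun k _ => h6 k, Finset.sum_comm]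

variable {K : Subfield ℂ}

/-- The stabilizer of a subspace defined over `K` is defined over `K`. -/
theorem stab_map {U : Submodule ℂ ((κ → B) → ℂ)} (hU : DefOver K U) {M : Matrix B B ℂ}
    (hM : ∀ x y, M x y ∈ K) (f : ℂ →ₗ[K] ℂ) {S : Matrix B B ℂ}
    (hS : ∀ u ∈ U, act (M * S) u ∈ U) : ∀ u ∈ U, act (M * S.map f) u ∈ U := by
  intro u hu
  have h1 := hU hu
  clear hu
  induction h1 using Submodule.span_induction with
  | mem u h2 =>
    have h3 : act (M * S.map f) u = fun I => f (act (M * S) u I) := by
      funext I
      unfold act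
      simp only [map_sum]
      refine Finset.sum_congr rfl fun k _ => Finset.sum_congr rfl fun b _ => ?_
      rw [lin_mul' f (h2.2 _), Matrix.mul_apply, Matrix.mul_apply, map_sum]
      congr 1
      refine Finset.sum_congr rfl fun x _ => ?_
      rw [lin_mul f (hM _ _), Matrix.map_apply]
    rw [h3]
    exact hU.map f (hS u h2.1)
  | zero =>
    rw [act_zero_right]
    exact U.zero_mem
  | add x y _ _ hx hy =>
    rw [act_add_right]
    exact U.add_mem hx hy
  | smul c x _ hx =>
    rw [act_smul_right]
    exact U.smul_mem _ hx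

end Pool.Agent.TH119.DR
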