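import Mathlib
import Pool.Agent.TH119.DR.Ten

/-!
# Subobjects of the tensor powers of a de Rham-Betti object without quadratic relations
-/

set_option linter.unusedSectionVars false

namespace Pool.Agent.TH119.DR

open Finset Matrix Pool.Agent.W437.HK

variable {B κ ι : Type*} [Fintype B] [DecidableEq B] [Fintype κ] [DecidableEq κ] [DecidableEq ι]

/-- Block matrices. -/
def Blk (cls : B → ι) (M : Matrix B B ℂ) : Prop := ∀ x y, cls x ≠ cls y → M x y = 0

/-- The matrix of the multiplication by scalars on the blocks. -/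
def dg (cls : B → ι) (c : ι → ℂ) : Matrix B B ℂ := diagonal fun x => c (cls x)

/-- Block matrices which are symmetric (`η = 1`) or antisymmetric (`η = -1`) on the blocks. -/
def IsSy (cls : B → ι) (η : ι → ℤˣ) (S : Matrix B B ℂ) : Prop :=
  Blk cls S ∧ ∀ x y, S y x = ((η (cls x) : ℤˣ) : ℤ) • S x y

variable {cls : B → ι} {η : ι → ℤˣ}

theorem blk_comm {M : Matrix B B ℂ} (hM : Blk cls M) (c : ι → ℂ) :
    dg cls c * M = M * dg cls c := by
  ext x y
  unfold dg
  rw [diagonal_mul, mul_diagonal]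
  by_cases h : cls x = cls y
  · rw [h, mul_comm]
  · rw [hM x y h, mul_zero, zero_mul]

theorem blk_of_comm {M : Matrix B B ℂ} (h : ∀ c : ι → ℂ, dg cls c * M = M * dg cls c) :
    Blk cls M := by
  intro x y hxy
  have h1 := congrFun (congrFun (h (fun i => if i = cls x then 1 else 0)) x) y
  simp only [dg, diagonal_mul, mul_diagonal, if_true, if_neg (Ne.symm hxy), one_mul, mul_zero]
    at h1
  exact h1

theorem blk_mul {M N : Matrix B B ℂ} (hM : Blk cls M) (hN : Blk cls N) : Blk cls (M * N) :=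
  blk_of_comm fun c => by
    rw [← Matrix.mul_assoc, blk_comm hM, Matrix.mul_assoc, blk_comm hN, Matrix.mul_assoc]

theorem blk_sub {M N : Matrix B B ℂ} (hM : Blk cls M) (hN : Blk cls N) : Blk cls (M - N) := by
  intro x y h
  rw [Matrix.sub_apply, hM x y h, hN x y h, sub_zero]

theorem blk_dg (c : ι → ℂ) : Blk cls (dg cls c) := by
  intro x y h
  unfold dg
  rw [diagonal_apply_ne]
  rintro rfl
  exact h rfl

theorem blk_transpose {M : Matrix B B ℂ} (hM : Blk cls M) : Blk cls Mᵀ := fun x y h =>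
  hM y x (Ne.symm h)

theorem blk_inv {M N : Matrix B B ℂ} (hM : Blk cls M) (h1 : M * N = 1) (h2 : N * M = 1) :
    Blk cls N :=
  blk_of_comm fun c => by
    have h3 := blk_comm hM c
    calc dg cls c * N = (N * M) * dg cls c * N := by rw [h2, Matrix.one_mul]
      _ = N * (M * dg cls c) * N := by rw [Matrix.mul_assoc N M]
      _ = N * (dg cls c * M) * N := by rw [h3]
      _ = N * dg cls c * (M * N) := by simp only [Matrix.mul_assoc]
      _ = N * dg cls c := by rw [h1, Matrix.mul_one]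

/-- The space of the matrices which are symmetric or antisymmetric on the blocks. -/
def SyM (cls : B → ι) (η : ι → ℤˣ) : Submodule ℂ (Matrix B B ℂ) where
  carrier := {S | IsSy cls η S}
  zero_mem' := ⟨fun _ _ _ => rfl, fun x y => by simp⟩
  add_mem' := by
    rintro S T ⟨h1, h2⟩ ⟨h3, h4⟩
    refine ⟨fun x y h => ?_, fun x y => ?_⟩
    · rw [Matrix.add_apply, h1 x y h, h3 x y h, add_zero]
    · rw [Matrix.add_apply, Matrix.add_apply, h2 x y, h4 x y, smul_add]
  smul_mem' := by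
    rintro c S ⟨h1, h2⟩
    refine ⟨fun x y h => ?_, fun x y => ?_⟩
    · rw [Matrix.smul_apply, h1 x y h, smul_zero]
    · rw [Matrix.smul_apply, Matrix.smul_apply, h2 x y, smul_comm]

/-- The elements of the orthogonal or symplectic Lie algebra which stabilize a subspace. -/
def Stb (cls : B → ι) (η : ι → ℤˣ) (M : Matrix B B ℂ) (U : Submodule ℂ ((κ → B) → ℂ)) :
    Submodule ℂ (Matrix B B ℂ) where
  carrier := {S | IsSy cls η S ∧ ∀ u ∈ U, act (M * S) u ∈ U}
  zero_mem' := ⟨(SyM cls η).zero_mem, fun u _ => by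
    rw [Matrix.mul_zero, act_zero_left]
    exact U.zero_mem⟩
  add_mem' := by
    rintro S T ⟨h1, h2⟩ ⟨h3, h4⟩
    refine ⟨(SyM cls η).add_mem h1 h3, fun u hu => ?_⟩
    rw [Matrix.mul_add, act_add_left]
    exact U.add_mem (h2 u hu) (h4 u hu)
  smul_mem' := by
    rintro c S ⟨h1, h2⟩
    refine ⟨(SyM cls η).smul_mem c h1, fun u hu => ?_⟩
    rw [Matrix.mul_smul, act_smul_left]
    exact U.smul_mem _ (h2 u hu)

theorem stb_map {K : Subfield ℂ} {U : Submodule ℂ ((κ → B) → ℂ)} (hU : DefOver K U)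
    {M : Matrix B B ℂ} (hM : ∀ x y, M x y ∈ K) (f : ℂ →ₗ[K] ℂ) {S : Matrix B B ℂ}
    (hS : S ∈ Stb cls η M U) : S.map f ∈ Stb cls η M U := by
  obtain ⟨⟨h1, h2⟩, h3⟩ := hS
  refine ⟨⟨fun x y h => ?_, fun x y => ?_⟩, stab_map hU hM f h3⟩
  · rw [Matrix.map_apply, h1 x y h, map_zero]
  · rw [Matrix.map_apply, Matrix.map_apply, h2 x y, map_zsmul]

/-- The action of the scalars of the blocks on a form of a given type. -/
theorem act_dg (c : ι → ℂ) {τ : κ → ι} {w : (κ → B) → ℂ}
    (hw : ∀ I, w I ≠ 0 → ∀ k, cls (I k) = τ k) : act (dg cls c) w = (∑ k, c (τ k)) • w := by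
  funext I
  rw [Pi.smul_apply, smul_eq_mul, Finset.sum_mul]
  unfold act
  refine Finset.sum_congr rfl fun k _ => ?_
  rw [Finset.sum_eq_single (I k)]
  · unfold dg
    rw [diagonal_apply_eq, Function.update_eq_self]
    by_cases h : w I = 0
    · rw [h, mul_zero, mul_zero]
    · rw [hw I h k]
  · intro b _ hb
    unfold dg
    rw [diagonal_apply_ne _ hb, zero_mul]
  · intro h
    exact absurd (Finset.mem_univ _) h

/-- The data: a period matrix `E` (rows: de Rham classes, columns: cycles), the forms `A` (Betti,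
over `F`) and `A'` (de Rham, over `K`) and the relations of Riemann. -/
structure Data (cls : B → ι) (η : ι → ℤˣ) (F K : Subfield ℂ) where
  E : Matrix B B ℂ
  E' : Matrix B B ℂ
  A : Matrix B B ℂ
  Ai : Matrix B B ℂ
  A' : Matrix B B ℂ
  lam : ι → ℂ
  bE : Blk cls E
  EE' : E * E' = 1
  E'E : E' * E = 1
  bA : Blk cls A
  AAi : A * Ai = 1
  AiA : Ai * A = 1
  symA : ∀ x y, A y x = -(((η (cls x) : ℤˣ) : ℤ) • A x y)
  lam_ne : ∀ i, lam i ≠ 0
  memA : ∀ x y, A x y ∈ F
  memA' : ∀ x y, A' x y ∈ K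
  rel : E * A * Eᵀ = dg cls lam * A'

/-- The image of a symmetric matrix on the de Rham side. -/
noncomputable def Data.tr {F K : Subfield ℂ} (d : Data cls η F K) (C : Matrix B B ℂ) : Matrix B B ℂ :=
  dg cls (fun i => (d.lam i)⁻¹) * (d.Eᵀ * C * d.E)

variable {F K : Subfield ℂ} (d : Data cls η F K)

theorem dg_mul (a b : ι → ℂ) : dg cls a * dg cls b = dg cls (fun i => a i * b i) := by
  unfold dg
  rw [diagonal_mul_diagonal]

theorem dg_one : dg cls (fun _ => (1 : ℂ)) = 1 := by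
  unfold dg
  exact diagonal_one

theorem Data.lam_cancel : dg cls (fun i => (d.lam i)⁻¹) * dg cls d.lam = 1 := by
  rw [dg_mul, ← dg_one (cls := cls)]
  congr 1
  funext i
  exact inv_mul_cancel₀ (d.lam_ne i)

theorem Data.twine {C : Matrix B B ℂ} : d.E * (d.A * d.tr C) = d.A' * C * d.E := by
  unfold Data.tr
  have h1 := blk_comm d.bE (fun i => (d.lam i)⁻¹)
  have h2 := blk_comm d.bA (fun i => (d.lam i)⁻¹)
  calc d.E * (d.A * (dg cls (fun i => (d.lam i)⁻¹) * (d.Eᵀ * C * d.E)))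
      = d.E * (d.A * dg cls (fun i => (d.lam i)⁻¹)) * (d.Eᵀ * C * d.E) := by
        simp only [Matrix.mul_assoc]
    _ = (d.E * dg cls (fun i => (d.lam i)⁻¹)) * d.A * (d.Eᵀ * C * d.E) := by
        rw [← h2]
        simp only [Matrix.mul_assoc]
    _ = dg cls (fun i => (d.lam i)⁻¹) * (d.E * d.A * d.Eᵀ) * C * d.E := by
        rw [← h1]
        simp only [Matrix.mul_assoc]
    _ = (dg cls (fun i => (d.lam i)⁻¹) * dg cls d.lam) * d.A' * C * d.E := by
        rw [d.rel]
        simp only [Matrix.mul_assoc]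
    _ = d.A' * C * d.E := by rw [d.lam_cancel, Matrix.one_mul]

theorem Data.sy_tr {C : Matrix B B ℂ} (hC : IsSy cls η C) : IsSy cls η (d.tr C) := by
  have hb : Blk cls (d.tr C) :=
    blk_mul (blk_dg _) (blk_mul (blk_mul (blk_transpose d.bE) hC.1) d.bE)
  refine ⟨hb, fun x y => ?_⟩
  by_cases hxy : cls x = cls y
  · unfold Data.tr dg
    rw [diagonal_mul, diagonal_mul, ← hxy]
    have h1 : (d.Eᵀ * C * d.E) y x = ((η (cls x) : ℤˣ) : ℤ) • (d.Eᵀ * C * d.E) x y := by
      simp only [Matrix.mul_apply, Matrix.transpose_apply, Finset.sum_mul, Finset.smul_sum]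
      rw [Finset.sum_comm]
      refine Finset.sum_congr rfl fun a _ => Finset.sum_congr rfl fun b _ => ?_
      by_cases ha : cls a = cls y
      · rw [hC.2 b a]
        by_cases hab : cls a = cls b
        · rw [← hab, ha, ← hxy]
          simp only [zsmul_eq_mul]
          ring
        · rw [hC.1 b a (Ne.symm hab)]
          simp
      · rw [d.bE a y ha]
        simp
    rw [h1]
    simp only [zsmul_eq_mul]
    ring
  · rw [hb x y hxy, hb y x (Ne.symm hxy), smul_zero]

/-- The inverse of `Data.tr`. -/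
noncomputable def Data.rt (S : Matrix B B ℂ) : Matrix B B ℂ :=
  dg cls d.lam * (d.E'ᵀ * S * d.E')

theorem Data.bE' : Blk cls d.E' := blk_inv d.bE d.EE' d.E'E

theorem Data.tr_rt (S : Matrix B B ℂ) : d.tr (d.rt S) = S := by
  unfold Data.tr Data.rt
  have h1 := blk_comm (blk_transpose d.bE) d.lam
  have h2 : d.Eᵀ * d.E'ᵀ = 1 := by rw [← transpose_mul, d.E'E, transpose_one]
  calc dg cls (fun i => (d.lam i)⁻¹) * (d.Eᵀ * (dg cls d.lam * (d.E'ᵀ * S * d.E')) * d.E)
      = dg cls (fun i => (d.lam i)⁻¹) * (d.Eᵀ * dg cls d.lam) * d.E'ᵀ * S * (d.E' * d.E) := by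
        simp only [Matrix.mul_assoc]
    _ = (dg cls (fun i => (d.lam i)⁻¹) * dg cls d.lam) * (d.Eᵀ * d.E'ᵀ) * S * (d.E' * d.E) := by
        rw [← h1]
        simp only [Matrix.mul_assoc]
    _ = S := by rw [d.lam_cancel, h2, d.E'E, Matrix.one_mul, Matrix.one_mul, Matrix.mul_one]

theorem Data.sy_rt {S : Matrix B B ℂ} (hS : IsSy cls η S) : IsSy cls η (d.rt S) := by
  have hb : Blk cls (d.rt S) :=
    blk_mul (blk_dg _) (blk_mul (blk_mul (blk_transpose d.bE') hS.1) d.bE')
  refine ⟨hb, fun x y => ?_⟩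
  by_cases hxy : cls x = cls y
  · unfold Data.rt dg
    rw [diagonal_mul, diagonal_mul, ← hxy]
    have h1 : (d.E'ᵀ * S * d.E') y x = ((η (cls x) : ℤˣ) : ℤ) • (d.E'ᵀ * S * d.E') x y := by
      simp only [Matrix.mul_apply, Matrix.transpose_apply, Finset.sum_mul, Finset.smul_sum]
      rw [Finset.sum_comm]
      refine Finset.sum_congr rfl fun a _ => Finset.sum_congr rfl fun b _ => ?_
      by_cases ha : cls a = cls y
      · rw [hS.2 b a]
        by_cases hab : cls a = cls b
        · rw [← hab, ha, ← hxy]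
          simp only [zsmul_eq_mul]
          ring
        · rw [hS.1 b a (Ne.symm hab)]
          simp
      · rw [d.bE' a y ha]
        simp
    rw [h1]
    simp only [zsmul_eq_mul]
    ring
  · rw [hb x y hxy, hb y x (Ne.symm hxy), smul_zero]

/-- The part of a subspace on the de Rham side. -/
noncomputable def Data.dR (W : Submodule ℂ ((κ → B) → ℂ)) : Submodule ℂ ((κ → B) → ℂ) := W.comap (pullL d.E)

theorem Data.mem_dR {W : Submodule ℂ ((κ → B) → ℂ)} {w : (κ → B) → ℂ} :
    w ∈ d.dR W ↔ pull d.E w ∈ W := Iff.rfl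

theorem Data.exists_dR {W : Submodule ℂ ((κ → B) → ℂ)} {w : (κ → B) → ℂ} (hw : w ∈ W) :
    ∃ w' ∈ d.dR W, w = pull d.E w' := by
  refine ⟨pull d.E' w, ?_, ?_⟩
  · rw [d.mem_dR, pull_pull, d.E'E, pull_one]
    exact hw
  · rw [pull_pull, d.E'E, pull_one]

theorem Data.tr_mem {W : Submodule ℂ ((κ → B) → ℂ)} {C : Matrix B B ℂ}
    (hC : C ∈ Stb cls η d.A' (d.dR W)) : d.tr C ∈ Stb cls η d.A W := by
  refine ⟨d.sy_tr hC.1, fun w hw => ?_⟩
  obtain ⟨w', hw', rfl⟩ := d.exists_dR hw
  rw [act_pull d.twine, ← d.mem_dR]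
  exact hC.2 w' hw'

theorem Data.rt_mem {W : Submodule ℂ ((κ → B) → ℂ)} {S : Matrix B B ℂ}
    (hS : S ∈ Stb cls η d.A W) : d.rt S ∈ Stb cls η d.A' (d.dR W) := by
  refine ⟨d.sy_rt hS.1, fun w' hw' => ?_⟩
  rw [d.mem_dR] at hw' ⊢
  rw [← act_pull d.twine, d.tr_rt]
  exact hS.2 _ hw'

/-- The derivative of the period matrix. -/
theorem Data.deriv (hF : ∀ x ∈ F, IsAlgebraic ℚ x) (hK : ∀ x ∈ K, IsAlgebraic ℚ x)
    (δ : Derivation ℚ ℂ ℂ) : ∃ (S : Matrix B B ℂ) (c : ι → ℂ), IsSy cls η S ∧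
      d.E * (d.A * S + dg cls c) = d.E.map δ := by
  obtain ⟨c, hc⟩ : ∃ c : ι → ℂ, c = fun i => (2 : ℂ)⁻¹ * (δ (d.lam i) * (d.lam i)⁻¹) := ⟨_, rfl⟩
  obtain ⟨X, hX⟩ : ∃ X, X = d.E' * d.E.map δ := ⟨_, rfl⟩
  have hEX : d.E * X = d.E.map δ := by
    rw [hX, ← Matrix.mul_assoc, d.EE', Matrix.one_mul]
  have bEδ : Blk cls (d.E.map δ) := fun x y h => by
    rw [Matrix.map_apply, d.bE x y h, map_zero]
  have bX : Blk cls X := by
    rw [hX]
    exact blk_mul d.bE' bEδ
  have hA : ∀ x y, δ (d.A x y) = 0 := fun x y => deriv_alg δ (hF _ (d.memA x y))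
  have hA' : ∀ x y, δ (d.A' x y) = 0 := fun x y => deriv_alg δ (hK _ (d.memA' x y))
  -- the derivative of the relation
  have h1 : d.E.map δ * d.A * d.Eᵀ + d.E * d.A * (d.E.map δ)ᵀ =
      dg cls (fun i => 2 * c i) * (d.E * d.A * d.Eᵀ) := by
    have h2 : (d.E * d.A * d.Eᵀ).map δ = d.E.map δ * d.A * d.Eᵀ + d.E * d.A * (d.E.map δ)ᵀ := by
      ext x y
      simp only [Matrix.map_apply, Matrix.mul_apply, Matrix.add_apply, Matrix.transpose_apply,
        map_sum, Derivation.leibniz, smul_eq_mul, hA, mul_zero, zero_add, Finset.sum_mul,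
        ← Finset.sum_add_distrib]
      refine Finset.sum_congr rfl fun a _ => Finset.sum_congr rfl fun b _ => ?_
      ring
    rw [← h2, d.rel]
    ext x y
    unfold dg
    rw [Matrix.map_apply, diagonal_mul, diagonal_mul, diagonal_mul, Derivation.leibniz, hA',
      smul_zero, zero_add, hc, smul_eq_mul]
    have := d.lam_ne (cls x)
    field_simp
  have h3 : X * d.A + d.A * Xᵀ = dg cls (fun i => 2 * c i) * d.A := by
    have h4 : d.E * (X * d.A + d.A * Xᵀ) * d.Eᵀ = d.E * (dg cls (fun i => 2 * c i) * d.A) * d.Eᵀ := by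
      have h5 : d.E * (dg cls (fun i => 2 * c i) * d.A) * d.Eᵀ =
          dg cls (fun i => 2 * c i) * (d.E * d.A * d.Eᵀ) := by
        rw [← Matrix.mul_assoc d.E, ← blk_comm d.bE]
        simp only [Matrix.mul_assoc]
      rw [h5, ← h1, ← hEX, transpose_mul]
      simp only [Matrix.mul_add, Matrix.add_mul, Matrix.mul_assoc]
    have h6 : d.Eᵀ * d.E'ᵀ = 1 := by rw [← transpose_mul, d.E'E, transpose_one]
    calc X * d.A + d.A * Xᵀ = d.E' * (d.E * (X * d.A + d.A * Xᵀ) * d.Eᵀ) * d.E'ᵀ := by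
          rw [Matrix.mul_assoc, Matrix.mul_assoc, h6, Matrix.mul_one, ← Matrix.mul_assoc, d.E'E,
            Matrix.one_mul]
      _ = d.E' * (d.E * (dg cls (fun i => 2 * c i) * d.A) * d.Eᵀ) * d.E'ᵀ := by rw [h4]
      _ = dg cls (fun i => 2 * c i) * d.A := by
          rw [Matrix.mul_assoc, Matrix.mul_assoc, h6, Matrix.mul_one, ← Matrix.mul_assoc, d.E'E,
            Matrix.one_mul]
  obtain ⟨Y, hY⟩ : ∃ Y, Y = X - dg cls c := ⟨_, rfl⟩
  have bY : Blk cls Y := by
    rw [hY]
    exact blk_sub bX (blk_dg c)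
  have h7 : Y * d.A = -(d.A * Yᵀ) := by
    rw [eq_neg_iff_add_eq_zero, hY, transpose_sub, Matrix.sub_mul, Matrix.mul_sub]
    have h8 : (dg cls c)ᵀ = dg cls c := by
      unfold dg
      exact diagonal_transpose _
    have h9 : dg cls (fun i => 2 * c i) = dg cls c + dg cls c := by
      unfold dg
      rw [diagonal_add]
      congr 1
      funext x
      ring
    rw [h8, ← blk_comm d.bA, sub_add_sub_comm, h3, h9, Matrix.add_mul, sub_self]
  obtain ⟨S, hS⟩ : ∃ S, S = d.Ai * Y := ⟨_, rfl⟩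
  have hAS : d.A * S = Y := by
    rw [hS, ← Matrix.mul_assoc, d.AAi, Matrix.one_mul]
  have bS : Blk cls S := by
    rw [hS]
    exact blk_mul (blk_inv d.bA d.AAi d.AiA) bY
  refine ⟨S, c, ⟨bS, fun x y => ?_⟩, ?_⟩
  · -- symmetry
    have hAT : d.Aᵀ = -(dg cls (fun i => (((η i : ℤˣ) : ℤ) : ℂ)) * d.A) := by
      ext a b
      unfold dg
      rw [Matrix.neg_apply, diagonal_mul, Matrix.transpose_apply, d.symA a b, zsmul_eq_mul]
    have h10 : d.A * S * d.A = d.A * (Sᵀ * dg cls (fun i => (((η i : ℤˣ) : ℤ) : ℂ))) * d.A := by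
      rw [hAS, h7, ← hAS, transpose_mul, hAT]
      simp only [Matrix.mul_assoc, Matrix.mul_neg, neg_neg]
    have h11 : S = Sᵀ * dg cls (fun i => (((η i : ℤˣ) : ℤ) : ℂ)) := by
      calc S = d.Ai * (d.A * S * d.A) * d.Ai := by
            rw [Matrix.mul_assoc, Matrix.mul_assoc, Matrix.mul_assoc, d.AAi, Matrix.mul_one,
              ← Matrix.mul_assoc, d.AiA, Matrix.one_mul]
        _ = d.Ai * (d.A * (Sᵀ * dg cls (fun i => (((η i : ℤˣ) : ℤ) : ℂ))) * d.A) * d.Ai := by
            rw [h10]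
        _ = Sᵀ * dg cls (fun i => (((η i : ℤˣ) : ℤ) : ℂ)) := by
            rw [Matrix.mul_assoc, Matrix.mul_assoc, d.AAi, Matrix.mul_one,
              ← Matrix.mul_assoc, d.AiA, Matrix.one_mul]
    have h12 := congrFun (congrFun h11 y) x
    unfold dg at h12
    rw [mul_diagonal, Matrix.transpose_apply] at h12
    rw [h12, zsmul_eq_mul, mul_comm]
  · rw [hAS, hY, sub_add_cancel, hEX]

/-- The derivatives of the period matrix stabilize the subobjects. -/
theorem Data.deriv_stab (hF : ∀ x ∈ F, IsAlgebraic ℚ x) (hK : ∀ x ∈ K, IsAlgebraic ℚ x)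
    {W : Submodule ℂ ((κ → B) → ℂ)} (hWF : DefOver F W) (hWK : DefOver K (d.dR W))
    (δ : Derivation ℚ ℂ ℂ) {X : Matrix B B ℂ} (hX : d.E * X = d.E.map δ) :
    ∀ w ∈ W, act X w ∈ W := by
  intro w hw
  obtain ⟨w', hw', rfl⟩ := d.exists_dR hw
  have h1 := hWK hw'
  clear hw'
  clear hw
  rw [← pullL_apply, ← actR_apply, ← LinearMap.comp_apply]
  induction h1 using Submodule.span_induction with
  | mem u h2 =>
    rw [LinearMap.comp_apply, pullL_apply, actR_apply,
      ← deriv_pull δ hX (fun J => deriv_alg δ (hK _ (h2.2 J)))]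
    exact hWF.map (derK δ F hF) h2.1
  | zero =>
    rw [map_zero]
    exact W.zero_mem
  | add x y _ _ hx hy =>
    rw [map_add]
    exact W.add_mem hx hy
  | smul c x _ hx =>
    rw [map_smul]
    exact W.smul_mem _ hx

/-- There is no nontrivial quadratic relation with coefficients in `F` on the Betti side and in
`K` on the de Rham side. -/
def Data.NoQuad (d : Data cls η F K) : Prop :=
  ∀ b C : Matrix B B ℂ, IsSy cls η b → (∀ x y, b x y ∈ F) → IsSy cls η C → (∀ x y, C x y ∈ K) →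
    ∑ x, ∑ y, b x y * d.tr C x y = 0 →
    ∀ i, (∀ x y, cls x = i → b x y = 0) ∨ (∀ x y, cls x = i → C x y = 0)

/-- For every block some ratio of periods is transcendental. -/
def Data.Trans (d : Data cls η F K) : Prop :=
  ∀ i, ∃ x y z w, cls x = i ∧ cls z = i ∧ d.E z w ≠ 0 ∧ ¬ IsAlgebraic ℚ (d.E x y / d.E z w)

/-- A linear form on the matrices. -/
theorem form_eq (ψ : Matrix B B ℂ →ₗ[ℂ] ℂ) (S : Matrix B B ℂ) :
    ψ S = ∑ x, ∑ y, ψ (Matrix.single x y 1) * S x y := by
  conv_lhs => rw [matrix_eq_sum_single S]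
  rw [map_sum]
  refine Finset.sum_congr rfl fun x _ => ?_
  rw [map_sum]
  refine Finset.sum_congr rfl fun y _ => ?_
  have h1 : Matrix.single x y (S x y) = S x y • Matrix.single x y (1 : ℂ) := by
    rw [Matrix.smul_single, smul_eq_mul, mul_one]
  rw [h1, map_smul, smul_eq_mul, mul_comm]

/-- The part of a matrix in a block. -/
def part (cls : B → ι) (i : ι) (S : Matrix B B ℂ) : Matrix B B ℂ :=
  Matrix.of fun x y => if cls x = i then S x y else 0

theorem part_sy {S : Matrix B B ℂ} (hS : IsSy cls η S) (i : ι) : IsSy cls η (part cls i S) := by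
  refine ⟨fun x y h => ?_, fun x y => ?_⟩
  · simp only [part, Matrix.of_apply]
    split_ifs
    · exact hS.1 x y h
    · rfl
  · simp only [part, Matrix.of_apply]
    by_cases h : cls x = cls y
    · rw [← h]
      split_ifs
      · exact hS.2 x y
      · simp
    · rw [hS.1 x y h, hS.1 y x (Ne.symm h)]
      simp

/-- The matrices with the given symmetry in one block. -/
def SyB (cls : B → ι) (η : ι → ℤˣ) (i : ι) : Submodule ℂ (Matrix B B ℂ) where
  carrier := {T | IsSy cls η T ∧ ∀ x y, cls x ≠ i → T x y = 0}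
  zero_mem' := ⟨(SyM cls η).zero_mem, fun _ _ _ => rfl⟩
  add_mem' := by
    intro a b ha hb
    exact ⟨(SyM cls η).add_mem ha.1 hb.1, fun x y h => by
      rw [Matrix.add_apply, ha.2 x y h, hb.2 x y h, add_zero]⟩
  smul_mem' := by
    intro c a ha
    exact ⟨(SyM cls η).smul_mem c ha.1, fun x y h => by
      rw [Matrix.smul_apply, ha.2 x y h, smul_zero]⟩

/-- **Main theorem.** The subobjects of a tensor product are stable under the orthogonal and
symplectic Lie algebras. -/
theorem Data.main (hF : ∀ x ∈ F, IsAlgebraic ℚ x) (hK : ∀ x ∈ K, IsAlgebraic ℚ x)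
    (hQ : d.NoQuad) (hT : d.Trans)
    {W : Submodule ℂ ((κ → B) → ℂ)} {τ : κ → ι} (hτ : ∀ w ∈ W, ∀ I, w I ≠ 0 → ∀ k, cls (I k) = τ k)
    (hWF : DefOver F W) (hWK : DefOver K (d.dR W)) {S : Matrix B B ℂ} (hS : IsSy cls η S) :
    ∀ w ∈ W, act (d.A * S) w ∈ W := by
  classical
  -- the spaces
  obtain ⟨s, hs⟩ : ∃ s, s = Stb cls η d.A W := ⟨_, rfl⟩
  obtain ⟨s', hs'⟩ : ∃ s', s' = Stb cls η d.A' (d.dR W) := ⟨_, rfl⟩
  suffices h : S ∈ s by
    rw [hs] at h
    exact h.2
  by_contra hSs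
  -- a block
  obtain ⟨i, hi⟩ : ∃ i, part cls i S ∉ s := by
    by_contra hcon
    push Not at hcon
    apply hSs
    have h1 : S = ∑ i ∈ Finset.univ.image cls, part cls i S := by
      ext x y
      rw [Matrix.sum_apply]
      simp only [part, Matrix.of_apply]
      rw [Finset.sum_ite_eq, if_pos (Finset.mem_image_of_mem _ (Finset.mem_univ x))]
    rw [h1]
    exact Submodule.sum_mem _ fun i _ => hcon i
  -- an element with coordinates in `F`
  obtain ⟨T, hT1, hT2, hT3, hT4⟩ : ∃ T : Matrix B B ℂ, IsSy cls η T ∧ (∀ x y, T x y ∈ F) ∧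
      (∀ x y, cls x ≠ i → T x y = 0) ∧ T ∉ s := by
    by_contra hcon
    push Not at hcon
    apply hi
    have h1 : part cls i S ∈ Submodule.span ℂ {Y | Y ∈ SyB cls η i ∧ ∀ x y, Y x y ∈ F} := by
      refine mat_coords _ ?_ ⟨part_sy hS i, fun x y h => ?_⟩
      · rintro f X ⟨⟨h1, h2⟩, h3⟩
        refine ⟨⟨fun x y h => ?_, fun x y => ?_⟩, fun x y h => ?_⟩
        · rw [Matrix.map_apply, h1 x y h, map_zero]
        · rw [Matrix.map_apply, Matrix.map_apply, h2 x y, map_zsmul]
        · rw [Matrix.map_apply, h3 x y h, map_zero]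
      · simp only [part, Matrix.of_apply, if_neg h]
    refine Submodule.span_le.2 ?_ h1
    rintro T ⟨⟨h2, h3⟩, h4⟩
    exact hcon T h2 h4 h3
  -- a linear form
  obtain ⟨ψ, hψ1, hψ2⟩ := Submodule.exists_le_ker_of_notMem hT4
  obtain ⟨J, t, e, f, hf, hz⟩ := exists_coords F {ψ T}
  obtain ⟨j, hj⟩ : ∃ j, f j (ψ T) ≠ 0 := by
    by_contra hcon
    push Not at hcon
    apply hψ1
    rw [hz (ψ T) (Finset.mem_singleton_self _)]
    exact Finset.sum_eq_zero fun j _ => by rw [hcon, mul_zero]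
  obtain ⟨β, hβ⟩ : ∃ β : Matrix B B ℂ, β = Matrix.of fun x y => f j (ψ (Matrix.single x y 1)) :=
    ⟨_, rfl⟩
  have hβF : ∀ x y, β x y ∈ F := fun x y => by
    rw [hβ]
    exact hf j _
  have hβv : ∀ X : Matrix B B ℂ, (∀ x y, X x y ∈ F) → ∑ x, ∑ y, β x y * X x y = f j (ψ X) := by
    intro X hX
    rw [form_eq ψ X, map_sum]
    refine Finset.sum_congr rfl fun x _ => ?_
    rw [map_sum]
    refine Finset.sum_congr rfl fun y _ => ?_
    rw [lin_mul' _ (hX x y), hβ]
    rfl
  -- symmetrize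
  obtain ⟨b, hb⟩ : ∃ b : Matrix B B ℂ, b = Matrix.of fun x y =>
      if cls x = cls y then β x y + ((η (cls x) : ℤˣ) : ℤ) • β y x else 0 := ⟨_, rfl⟩
  have hηη : ∀ i, (((η i : ℤˣ) : ℤ) : ℂ) * (((η i : ℤˣ) : ℤ) : ℂ) = 1 := by
    intro i
    rw [← Int.cast_mul, ← Units.val_mul, Int.units_mul_self]
    simp
  have hbS : IsSy cls η b := by
    rw [hb]
    refine ⟨fun x y h => ?_, fun x y => ?_⟩
    · rw [Matrix.of_apply, if_neg h]
    · rw [Matrix.of_apply, Matrix.of_apply]
      by_cases h : cls x = cls y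
      · rw [if_pos h, if_pos h.symm, ← h, smul_add, zsmul_eq_mul, zsmul_eq_mul, zsmul_eq_mul,
          ← mul_assoc, hηη, one_mul, add_comm]
      · rw [if_neg h, if_neg (Ne.symm h), smul_zero]
  have hbF : ∀ x y, b x y ∈ F := by
    intro x y
    rw [hb, Matrix.of_apply]
    split_ifs
    · exact F.add_mem (hβF x y) (F.zsmul_mem (hβF y x) _)
    · exact F.zero_mem
  have hbv : ∀ X : Matrix B B ℂ, IsSy cls η X →
      ∑ x, ∑ y, b x y * X x y = 2 * ∑ x, ∑ y, β x y * X x y := by
    intro X hX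
    have h1 : ∑ x, ∑ y, b x y * X x y = ∑ x, ∑ y, β x y * X x y + ∑ x, ∑ y, β y x * X y x := by
      rw [← Finset.sum_add_distrib]
      refine Finset.sum_congr rfl fun x _ => ?_
      rw [← Finset.sum_add_distrib]
      refine Finset.sum_congr rfl fun y _ => ?_
      rw [hb, Matrix.of_apply]
      by_cases h : cls x = cls y
      · rw [if_pos h, hX.2 x y, zsmul_eq_mul, zsmul_eq_mul]
        ring
      · rw [if_neg h, hX.1 x y h, hX.1 y x (Ne.symm h)]
        ring
    rw [h1, Finset.sum_comm (f := fun x y => β y x * X y x), two_mul]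
  have hbT : ∑ x, ∑ y, b x y * T x y ≠ 0 := by
    rw [hbv T hT1, hβv T hT2]
    exact mul_ne_zero two_ne_zero hj
  have hbs : ∀ X ∈ s, ∑ x, ∑ y, b x y * X x y = 0 := by
    have h0 : ∀ (f : ℂ →ₗ[F] ℂ), ∀ X ∈ s, X.map f ∈ s := by
      intro f X hX
      rw [hs] at hX ⊢
      exact stb_map hWF d.memA f hX
    intro X hX
    have h1 := mat_coords s h0 hX
    clear hX
    induction h1 using Submodule.span_induction with
    | mem X hX =>
      have h2 : IsSy cls η X := by
        have := hX.1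
        rw [hs] at this
        exact this.1
      have h3 : ψ X = 0 := LinearMap.mem_ker.1 (hψ2 hX.1)
      rw [hbv X h2, hβv X hX.2, h3, map_zero, mul_zero]
    | zero => simp
    | add X Y _ _ h2 h3 =>
      simp only [Matrix.add_apply, mul_add, Finset.sum_add_distrib]
      rw [h2, h3, add_zero]
    | smul c X _ h2 =>
      simp only [Matrix.smul_apply, smul_eq_mul, mul_left_comm _ c, ← Finset.mul_sum]
      rw [h2, mul_zero]
  -- the de Rham side
  have hC : ∀ C ∈ s', ∀ x y, cls x = i → C x y = 0 := by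
    have h0 : ∀ (f : ℂ →ₗ[K] ℂ), ∀ X ∈ s', X.map f ∈ s' := by
      intro f X hX
      rw [hs'] at hX ⊢
      exact stb_map hWK d.memA' f hX
    intro C hC x y hx
    have h1 := mat_coords s' h0 hC
    clear hC
    induction h1 using Submodule.span_induction with
    | mem C hC =>
      have h2 := hC.1
      rw [hs'] at h2
      have h3 : d.tr C ∈ s := by
        rw [hs]
        exact d.tr_mem h2
      rcases hQ b C hbS hbF h2.1 hC.2 (hbs _ h3) i with h4 | h4
      · exfalso
        apply hbT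
        refine Finset.sum_eq_zero fun x _ => Finset.sum_eq_zero fun y _ => ?_
        by_cases h5 : cls x = i
        · rw [h4 x y h5, zero_mul]
        · rw [hT3 x y h5, mul_zero]
      · exact h4 x y hx
    | zero => rfl
    | add X Y _ _ h2 h3 => rw [Matrix.add_apply, h2, h3, add_zero]
    | smul c X _ h2 => rw [Matrix.smul_apply, h2, smul_zero]
  -- the derivatives
  obtain ⟨x, y, z, w, hx, hz', hne, htr⟩ := hT i
  obtain ⟨δ, hδ⟩ := exists_deriv htr
  apply hδ
  obtain ⟨S₁, c, hS1, hS2⟩ := d.deriv hF hK δ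
  have h1 : S₁ ∈ s := by
    rw [hs]
    refine ⟨hS1, fun u hu => ?_⟩
    have h2 := d.deriv_stab hF hK hWF hWK δ hS2 u hu
    rw [act_add_left, act_dg c (hτ u hu)] at h2
    have h3 := W.sub_mem h2 (W.smul_mem (∑ k, c (τ k)) hu)
    rwa [add_sub_cancel_right] at h3
  have h2 : d.rt S₁ ∈ s' := by
    rw [hs'] 
    rw [hs] at h1
    exact d.rt_mem h1
  have h3 : ∀ a b, cls a = i → δ (d.E a b) = c i * d.E a b := by
    intro a b' ha
    have h4 : d.tr (d.rt S₁) = S₁ := d.tr_rt S₁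
    have h6 : ∀ a b, cls a = i → S₁ a b = 0 := by
      intro a b' ha
      rw [← h4]
      unfold Data.tr dg
      rw [diagonal_mul, Matrix.mul_apply]
      rw [Finset.sum_eq_zero, mul_zero]
      intro y _
      rw [Matrix.mul_apply, Finset.sum_eq_zero, zero_mul]
      intro z _
      by_cases hz : cls z = i
      · rw [hC _ h2 z y hz, mul_zero]
      · rw [Matrix.transpose_apply, d.bE z a (by rw [ha]; exact hz), zero_mul]
    have h5 : ∀ a b, cls a = i → (d.A * S₁) a b = 0 := by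
      intro a b' ha
      rw [Matrix.mul_apply]
      refine Finset.sum_eq_zero fun y _ => ?_
      by_cases hy : cls y = i
      · rw [h6 y b' hy, mul_zero]
      · rw [d.bA a y (by rw [ha]; exact Ne.symm hy), zero_mul]
    have h7 := congrFun (congrFun hS2 a) b'
    rw [Matrix.mul_add, Matrix.add_apply, Matrix.map_apply] at h7
    rw [← h7]
    have h8 : (d.E * (d.A * S₁)) a b' = 0 := by
      rw [Matrix.mul_apply]
      refine Finset.sum_eq_zero fun y _ => ?_
      by_cases hy : cls y = i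
      · rw [h5 y b' hy, mul_zero]
      · rw [d.bE a y (by rw [ha]; exact Ne.symm hy), zero_mul]
    rw [h8, zero_add]
    unfold dg
    rw [mul_diagonal]
    by_cases hb' : cls b' = i
    · rw [hb', mul_comm]
    · rw [d.bE a b' (by rw [ha]; exact Ne.symm hb'), zero_mul, mul_zero]
  rw [div_eq_mul_inv, Derivation.leibniz, Derivation.leibniz_inv, h3 x y hx, h3 z w hz']
  simp only [smul_eq_mul]
  field_simp
  ring

end Pool.Agent.TH119.DR
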