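import Mathlib
import Pool.Agent.TH119.DR.Core

/-!
# De Rham-Betti classes are killed by the symplectic Lie algebras
-/

set_option linter.unusedSectionVars false

namespace Pool.Agent.TH119.DR

open Finset Matrix Pool.Agent.W437.HK

variable {B κ ι : Type*} [Fintype B] [DecidableEq B] [Fintype κ] [DecidableEq κ] [DecidableEq ι]
  {cls : B → ι} {η : ι → ℤˣ} {F K : Subfield ℂ} (d : Data cls η F K)

/-- Commutators kill the eigenvectors. -/
theorem comm_kill {X Y : Matrix B B ℂ} {t : (κ → B) → ℂ} {a b : ℂ} (hX : act X t = a • t)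
    (hY : act Y t = b • t) : act (Y * X - X * Y) t = 0 := by
  rw [← act_comm X Y t, hX, hY, act_smul_right, act_smul_right, hX, hY, smul_comm, sub_self]

theorem pull_smul (E : Matrix B B ℂ) (a : ℂ) (c : (κ → B) → ℂ) :
    pull E (a • c) = a • pull E c := (pullL E).map_smul a c

/-- A homogeneous de Rham-Betti class is an eigenvector. -/
theorem Data.eigen (hF : ∀ x ∈ F, IsAlgebraic ℚ x) (hK : ∀ x ∈ K, IsAlgebraic ℚ x)
    (hQ : d.NoQuad) (hT : d.Trans) {t t' : (κ → B) → ℂ} {τ : κ → ι} {μ : ℂ}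
    (hτ : ∀ I, t I ≠ 0 → ∀ k, cls (I k) = τ k) (htF : ∀ I, t I ∈ F) (htK : ∀ I, t' I ∈ K)
    (ht : t = μ • pull d.E t') {S : Matrix B B ℂ} (hS : IsSy cls η S) :
    ∃ a : ℂ, act (d.A * S) t = a • t := by
  by_cases hμ : μ = 0
  · refine ⟨0, ?_⟩
    rw [ht, hμ, zero_smul, act_zero_right, smul_zero]
  have hW : ∀ w : (κ → B) → ℂ, w ∈ Submodule.span ℂ {t} ↔ ∃ a : ℂ, a • t = w := fun w =>
    Submodule.mem_span_singleton
  have h1 := d.main hF hK hQ hT (W := Submodule.span ℂ {t}) (τ := τ) ?_ ?_ ?_ hS t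
    (Submodule.mem_span_singleton_self t)
  · obtain ⟨a, ha⟩ := (hW _).1 h1
    exact ⟨a, ha.symm⟩
  · intro w hw I hI k
    obtain ⟨a, rfl⟩ := (hW w).1 hw
    refine hτ I (fun h => hI ?_) k
    rw [Pi.smul_apply, h, smul_zero]
  · rw [DefOver, Submodule.span_le, Set.singleton_subset_iff]
    exact Submodule.subset_span ⟨Submodule.mem_span_singleton_self t, htF⟩
  · intro w' hw'
    rw [d.mem_dR, hW] at hw'
    obtain ⟨a, ha⟩ := hw'
    have h2 : w' = (a * μ) • t' := by
      have h3 : pull d.E' (a • t) = w' := by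
        rw [ha, pull_pull, d.EE', pull_one]
      rw [← h3, ht, smul_smul, pull_smul, pull_pull, d.EE', pull_one]
    rw [h2]
    refine Submodule.smul_mem _ _ (Submodule.subset_span ⟨?_, htK⟩)
    rw [d.mem_dR, hW]
    refine ⟨μ⁻¹, ?_⟩
    rw [ht, smul_smul, inv_mul_cancel₀ hμ, one_smul]

/-- The part of a form of a given type. -/
def typ (cls : B → ι) (τ : κ → ι) (c : (κ → B) → ℂ) : (κ → B) → ℂ :=
  fun I => if ∀ k, cls (I k) = τ k then c I else 0

theorem sum_typ (c : (κ → B) → ℂ) :
    ∑ τ ∈ Finset.univ.image (fun I : κ → B => fun k => cls (I k)), typ cls τ c = c := by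
  classical
  funext I
  rw [Finset.sum_apply, Finset.sum_eq_single (fun k => cls (I k))]
  · unfold typ
    rw [if_pos fun _ => rfl]
  · intro τ _ hτ
    unfold typ
    rw [if_neg]
    intro h
    exact hτ (funext fun k => (h k).symm)
  · intro h
    exact absurd (Finset.mem_image_of_mem _ (Finset.mem_univ I)) h

theorem typ_apply (τ : κ → ι) (c : (κ → B) → ℂ) (I : κ → B) :
    typ cls τ c I = if ∀ k, cls (I k) = τ k then c I else 0 := rfl

theorem pull_apply (E : Matrix B B ℂ) (c : (κ → B) → ℂ) (I : κ → B) :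
    pull E c I = ∑ J : κ → B, (∏ k, E (J k) (I k)) * c J := rfl

theorem typ_pull {E : Matrix B B ℂ} (hE : Blk cls E) (τ : κ → ι) (c : (κ → B) → ℂ) :
    typ cls τ (pull E c) = pull E (typ cls τ c) := by
  funext I
  rw [typ_apply, pull_apply, pull_apply]
  by_cases h : ∀ k, cls (I k) = τ k
  · rw [if_pos h]
    refine Finset.sum_congr rfl fun J _ => ?_
    rw [typ_apply]
    by_cases h2 : ∀ k, cls (J k) = τ k
    · rw [if_pos h2]
    · rw [if_neg h2, mul_zero]
      push Not at h2
      obtain ⟨k, hk⟩ := h2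
      rw [Finset.prod_eq_zero (Finset.mem_univ k), zero_mul]
      exact hE _ _ (by rw [h k]; exact hk)
  · rw [if_neg h]
    symm
    refine Finset.sum_eq_zero fun J _ => ?_
    rw [typ_apply]
    by_cases h2 : ∀ k, cls (J k) = τ k
    · push Not at h
      obtain ⟨k, hk⟩ := h
      rw [Finset.prod_eq_zero (Finset.mem_univ k), zero_mul]
      exact hE _ _ (by rw [h2 k]; exact Ne.symm hk)
    · rw [if_neg h2, mul_zero]

/-- The elements of rank one of the symplectic Lie algebra. -/
theorem rank_one_comm {A : Matrix B B ℂ} (hA : Aᵀ = -A) (s v : B → ℂ) :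
    (A * (vecMulVec s v + vecMulVec v s)) * (A * vecMulVec s s) -
      (A * vecMulVec s s) * (A * (vecMulVec s v + vecMulVec v s)) =
      (2 * (v ⬝ᵥ (A *ᵥ s))) • (A * vecMulVec s s) := by
  have h1 : ∀ x y : B → ℂ, x ⬝ᵥ (A *ᵥ y) = -(y ⬝ᵥ (A *ᵥ x)) := by
    intro x y
    rw [dotProduct_mulVec, ← mulVec_transpose, hA, neg_mulVec, neg_dotProduct, dotProduct_comm]
  have h2 : s ⬝ᵥ (A *ᵥ s) = 0 := by
    have h3 := h1 s s
    have h4 : (2 : ℂ) * (s ⬝ᵥ (A *ᵥ s)) = 0 := by linear_combination h3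
    exact (mul_eq_zero.1 h4).resolve_left two_ne_zero
  have h3 : ∀ a b c e : B → ℂ, (A * vecMulVec a b) * (A * vecMulVec c e) =
      (b ⬝ᵥ (A *ᵥ c)) • (A * vecMulVec a e) := by
    intro a b c e
    rw [Matrix.mul_assoc, ← Matrix.mul_assoc (vecMulVec a b), Matrix.vecMulVec_mul,
      vecMulVec_mul_vecMulVec, ← dotProduct_mulVec, vecMulVec_smul, Matrix.mul_smul]
  rw [Matrix.mul_add, Matrix.add_mul, Matrix.mul_add, h3, h3, h3, h3, h2, h1 s v, zero_smul,
    zero_smul, add_zero, zero_add, neg_smul, sub_neg_eq_add, ← two_smul ℂ, smul_smul]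

/-- A de Rham-Betti class is killed by the elements of rank one. -/
theorem Data.kill (hF : ∀ x ∈ F, IsAlgebraic ℚ x) (hK : ∀ x ∈ K, IsAlgebraic ℚ x)
    (hQ : d.NoQuad) (hT : d.Trans) {t t' : (κ → B) → ℂ} {μ : ℂ}
    (htF : ∀ I, t I ∈ F) (htK : ∀ I, t' I ∈ K) (ht : t = μ • pull d.E t') {i : ι}
    (hi : η i = 1) {s : B → ℂ} (hs : ∀ x, cls x ≠ i → s x = 0) :
    act (d.A * vecMulVec s s) t = 0 := by
  classical
  have hA : ∀ x y, cls x = i → d.A y x = -d.A x y := by
    intro x y hx
    rw [d.symA x y, hx, hi]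
    simp
  -- the part of the form in the block
  obtain ⟨A, hAdef⟩ : ∃ A : Matrix B B ℂ, A = Matrix.of fun x y => if cls x = i then d.A x y else 0 :=
    ⟨_, rfl⟩
  have hAT : Aᵀ = -A := by
    rw [hAdef]
    ext x y
    rw [Matrix.transpose_apply, Matrix.neg_apply, Matrix.of_apply, Matrix.of_apply]
    by_cases hxy : cls x = cls y
    · rw [← hxy]
      split_ifs with h
      · exact hA x y h
      · rw [neg_zero]
    · rw [d.bA y x (Ne.symm hxy), d.bA x y hxy]
      simp
  have hvA : ∀ u v : B → ℂ, (∀ x, cls x ≠ i → u x = 0) →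
      d.A * vecMulVec u v = A * vecMulVec u v := by
    intro u v hu
    ext x y
    rw [Matrix.mul_apply, Matrix.mul_apply]
    refine Finset.sum_congr rfl fun z _ => ?_
    by_cases hz : cls z = i
    · rw [hAdef, Matrix.of_apply]
      by_cases hx : cls x = i
      · rw [if_pos hx]
      · rw [if_neg hx, d.bA x z (by rw [hz]; exact hx)]
    · rw [vecMulVec_apply, hu z hz, zero_mul, mul_zero, mul_zero]
  by_cases hs0 : s = 0
  · have h1 : vecMulVec s s = 0 := by
      ext x y
      rw [vecMulVec_apply, hs0]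
      simp
    rw [h1, Matrix.mul_zero, act_zero_left]
  -- a vector which is not orthogonal
  obtain ⟨v, hv, hvs⟩ : ∃ v : B → ℂ, (∀ x, cls x ≠ i → v x = 0) ∧ v ⬝ᵥ (A *ᵥ s) ≠ 0 := by
    by_contra hcon
    push Not at hcon
    apply hs0
    have h1 : d.A *ᵥ s = 0 := by
      funext x
      by_cases hx : cls x = i
      · have h2 := hcon (Pi.single x 1) (fun y hy => by
          rw [Pi.single_eq_of_ne]
          rintro rfl
          exact hy hx)
        rw [single_dotProduct, one_mul] at h2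
        rw [Pi.zero_apply, ← h2, mulVec, mulVec, dotProduct, dotProduct]
        refine Finset.sum_congr rfl fun y _ => ?_
        rw [hAdef, Matrix.of_apply, if_pos hx]
      · rw [mulVec, dotProduct, Pi.zero_apply]
        refine Finset.sum_eq_zero fun y _ => ?_
        by_cases hy : cls y = i
        · rw [d.bA x y (by rw [hy]; exact hx), zero_mul]
        · rw [hs y hy, mul_zero]
    have h2 : d.Ai *ᵥ (d.A *ᵥ s) = s := by
      rw [mulVec_mulVec, d.AiA, one_mulVec]
    rw [← h2, h1, mulVec_zero]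
  have hsy1 : IsSy cls η (vecMulVec s s) := by
    refine ⟨fun x y h => ?_, fun x y => ?_⟩
    · rw [vecMulVec_apply]
      by_cases hx : cls x = i
      · rw [hs y (by rw [← hx]; exact Ne.symm h), mul_zero]
      · rw [hs x hx, zero_mul]
    · rw [vecMulVec_apply, vecMulVec_apply]
      by_cases hx : cls x = i
      · rw [hx, hi, Units.val_one, one_smul, mul_comm]
      · rw [hs x hx, zero_mul, mul_zero, smul_zero]
  have hsy2 : IsSy cls η (vecMulVec s v + vecMulVec v s) := by
    refine ⟨fun x y h => ?_, fun x y => ?_⟩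
    · rw [Matrix.add_apply, vecMulVec_apply, vecMulVec_apply]
      by_cases hx : cls x = i
      · rw [hs y (by rw [← hx]; exact Ne.symm h), hv y (by rw [← hx]; exact Ne.symm h)]
        ring
      · rw [hs x hx, hv x hx]
        ring
    · rw [Matrix.add_apply, Matrix.add_apply, vecMulVec_apply, vecMulVec_apply, vecMulVec_apply,
        vecMulVec_apply]
      by_cases hx : cls x = i
      · rw [hx, hi, Units.val_one, one_smul]
        ring
      · rw [hs x hx, hv x hx]
        simp
  rw [← sum_typ (cls := cls) t]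
  have hsum : ∀ (s' : Finset (κ → ι)), act (d.A * vecMulVec s s) (∑ τ ∈ s', typ cls τ t) =
      ∑ τ ∈ s', act (d.A * vecMulVec s s) (typ cls τ t) := by
    intro s'
    exact map_sum (actR (d.A * vecMulVec s s)) _ _
  rw [hsum]
  refine Finset.sum_eq_zero fun τ _ => ?_
  have hτ : ∀ I, typ cls τ t I ≠ 0 → ∀ k, cls (I k) = τ k := by
    intro I hI
    rw [typ_apply] at hI
    by_contra h
    exact hI (if_neg h)
  have htF' : ∀ I, typ cls τ t I ∈ F := by
    intro I
    rw [typ_apply]
    split_ifs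
    · exact htF I
    · exact F.zero_mem
  have htK' : ∀ I, typ cls τ t' I ∈ K := by
    intro I
    rw [typ_apply]
    split_ifs
    · exact htK I
    · exact K.zero_mem
  have ht' : typ cls τ t = μ • pull d.E (typ cls τ t') := by
    rw [← typ_pull d.bE, ht]
    funext I
    rw [Pi.smul_apply, typ_apply, typ_apply, Pi.smul_apply]
    split_ifs
    · rfl
    · rw [smul_zero]
  obtain ⟨a, ha⟩ := d.eigen hF hK hQ hT hτ htF' htK' ht' hsy1
  obtain ⟨b, hb⟩ := d.eigen hF hK hQ hT hτ htF' htK' ht' hsy2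
  have h1 := comm_kill ha hb
  have h2 : d.A * (vecMulVec s v + vecMulVec v s) = A * (vecMulVec s v + vecMulVec v s) := by
    rw [Matrix.mul_add, Matrix.mul_add, hvA s v hs, hvA v s hv]
  rw [h2, hvA s s hs, rank_one_comm hAT, act_smul_left, ← hvA s s hs] at h1
  exact (smul_eq_zero.1 h1).resolve_left (mul_ne_zero two_ne_zero hvs)

end Pool.Agent.TH119.DR
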