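import Mathlib
import Pool.Agent.H204R3.GP.FFT
import Pool.Agent.TH119.DR.Line
import Pool.Agent.TH119.DR.Defs

/-!
# De Rham-Betti classes on products of varieties without quadratic period relations
-/

set_option linter.unusedSectionVars false

namespace Pool.Agent.TH119.DR

open Finset Matrix Pool.Agent.W437.HK

/-! ### The first fundamental theorem -/

section fft

open Pool.Agent.H204R3.SP Pool.Agent.H204R3.GP

variable {R : Type*} [Fintype R] [DecidableEq R] {Q : Type*} [DecidableEq Q]
  {cls : R → Q} {inv : R → R} {jj : R → ℚ}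

/-- The part of a rational form of a given type. -/
def typQ {κ : Type*} [Fintype κ] (cls : R → Q) (τ : κ → Q) (c : (κ → R) → ℚ) : (κ → R) → ℚ :=
  fun I => if ∀ l, cls (I l) = τ l then c I else 0

theorem typQ_apply {κ : Type*} [Fintype κ] (τ : κ → Q) (c : (κ → R) → ℚ) (I : κ → R) :
    typQ cls τ c I = if ∀ l, cls (I l) = τ l then c I else 0 := rfl

theorem sum_typQ {κ : Type*} [Fintype κ] [DecidableEq κ] (c : (κ → R) → ℚ) :
    ∑ τ ∈ Finset.univ.image (fun I : κ → R => fun l => cls (I l)), typQ cls τ c = c := by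
  classical
  funext I
  rw [Finset.sum_apply, Finset.sum_eq_single (fun l => cls (I l))]
  · rw [typQ_apply, if_pos fun _ => rfl]
  · intro τ _ hτ
    rw [typQ_apply, if_neg]
    intro h
    exact hτ (funext fun l => (h l).symm)
  · intro h
    exact absurd (Finset.mem_image_of_mem _ (Finset.mem_univ I)) h

theorem typQ_mem (hcls : ∀ x, cls (inv x) = cls x) {κ : Type*} [Fintype κ] [DecidableEq κ]
    {c : (κ → R) → ℚ}
    (h : ∀ b d : R, cls b = cls d → ∀ I : κ → R,
      ∑ l, (JJ inv jj b (I l) * c (Function.update I l d) +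
        JJ inv jj d (I l) * c (Function.update I l b)) = 0) (τ : κ → Q) :
    typQ cls τ c ∈ InvG cls inv jj κ τ := by
  refine ⟨fun b d hbd I => ?_, fun I hI l => ?_⟩
  · rw [hcls] at hbd
    have key : ∀ (x y : R), cls x = cls y → ∀ l,
        JJ inv jj x (I l) * typQ cls τ c (Function.update I l y) =
        if ∀ l, cls (I l) = τ l then JJ inv jj x (I l) * c (Function.update I l y) else 0 := by
      intro x y hxy l
      by_cases hx : I l = inv x
      · have h1 : cls (I l) = cls y := by rw [hx, hcls, hxy]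
        have h2 : (∀ l', cls (Function.update I l y l') = τ l') ↔ ∀ l', cls (I l') = τ l' := by
          refine forall_congr' fun l' => ?_
          by_cases hl : l' = l
          · subst hl
            rw [Function.update_self, h1]
          · rw [Function.update_of_ne hl]
        rw [typQ_apply]
        by_cases h3 : ∀ l', cls (I l') = τ l'
        · rw [if_pos (h2.2 h3), if_pos h3]
        · rw [if_neg (fun h => h3 (h2.1 h)), if_neg h3, mul_zero]
      · have h1 : JJ inv jj x (I l) = 0 := by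
          unfold JJ
          rw [if_neg hx]
        rw [h1, zero_mul, zero_mul]
        split_ifs <;> rfl
    have h4 : ∀ l, JJ inv jj b (I l) * typQ cls τ c (Function.update I l d) +
        JJ inv jj d (I l) * typQ cls τ c (Function.update I l b) =
        if ∀ l, cls (I l) = τ l then (JJ inv jj b (I l) * c (Function.update I l d) +
          JJ inv jj d (I l) * c (Function.update I l b)) else 0 := by
      intro l
      rw [key b d hbd l, key d b hbd.symm l]
      split_ifs
      · rfl
      · rw [add_zero]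
    rw [Finset.sum_congr rfl (fun l _ => h4 l)]
    by_cases h5 : ∀ l, cls (I l) = τ l
    · simp only [if_pos h5]
      exact h b d hbd I
    · simp only [if_neg h5, Finset.sum_const_zero]
  · rw [typQ_apply] at hI
    by_contra h1
    apply hI
    rw [if_neg]
    intro h2
    exact h1 (h2 l)

theorem mem_MatG (hinv : ∀ x, inv (inv x) = x) (hjj : ∀ x, jj (inv x) = -jj x)
    (hj0 : ∀ x, jj x ≠ 0) (hcls : ∀ x, cls (inv x) = cls x) {κ : Type} [Fintype κ]
    [DecidableEq κ] {m : ℕ} (hκ : Fintype.card κ = 2 * m) {c : (κ → R) → ℚ}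
    (h : ∀ b d : R, cls b = cls d → ∀ I : κ → R,
      ∑ l, (JJ inv jj b (I l) * c (Function.update I l d) +
        JJ inv jj d (I l) * c (Function.update I l b)) = 0) :
    c ∈ MatG cls inv jj κ m := by
  rw [← sum_typQ (cls := cls) c]
  refine Submodule.sum_mem _ fun τ _ => ?_
  refine fftG hinv hjj hj0 (fun x y h => by rw [hcls, hcls, h]) m κ hκ τ (typQ_mem hcls h τ)

end fft

/-! ### The data of a family -/

variable {ι : Type} [Fintype ι] [DecidableEq ι] {g : ι → ℕ} (V : ∀ i, Periods (g i))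

/-- The block diagonal symplectic matrix. -/
def JB (g : ι → ℕ) : Matrix (Bas g) (Bas g) ℂ := Matrix.blockDiagonal' fun i => Sp (g i)

theorem Sp_sq (n : ℕ) : Sp n * Sp n = -1 := by
  unfold Sp
  rw [fromBlocks_multiply]
  simp [← fromBlocks_one, fromBlocks_neg]

theorem Sp_transpose (n : ℕ) : (Sp n)ᵀ = -Sp n := by
  unfold Sp
  rw [fromBlocks_transpose, fromBlocks_neg]
  simp

theorem JB_sq : JB g * JB g = -1 := by
  unfold JB
  rw [← blockDiagonal'_mul]
  simp only [Sp_sq]
  have h1 : (blockDiagonal' fun i =>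
      (-1 : Matrix (Fin (g i) ⊕ Fin (g i)) (Fin (g i) ⊕ Fin (g i)) ℂ)) = -blockDiagonal' (fun i =>
        (1 : Matrix (Fin (g i) ⊕ Fin (g i)) (Fin (g i) ⊕ Fin (g i)) ℂ)) :=
    blockDiagonal'_neg (fun i => (1 : Matrix (Fin (g i) ⊕ Fin (g i)) (Fin (g i) ⊕ Fin (g i)) ℂ))
  rw [h1]
  congr 1
  exact blockDiagonal'_one

theorem JB_transpose : (JB g)ᵀ = -JB g := by
  unfold JB
  rw [blockDiagonal'_transpose]
  simp only [Sp_transpose]
  exact blockDiagonal'_neg (fun i => Sp (g i))

theorem blk_bd (M : ∀ i, Matrix (Fin (g i) ⊕ Fin (g i)) (Fin (g i) ⊕ Fin (g i)) ℂ) :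
    Blk (Sigma.fst : Bas g → ι) (blockDiagonal' M) := by
  rintro ⟨i, x⟩ ⟨j, y⟩ h
  exact blockDiagonal'_apply_ne M x y h

/-- The field of rational numbers. -/
noncomputable def QQ : Subfield ℂ := (Rat.castHom ℂ).fieldRange

/-- The field of algebraic numbers. -/
noncomputable def QB : Subfield ℂ := (algebraicClosure ℚ ℂ).toSubfield

theorem mem_QQ (q : ℚ) : (q : ℂ) ∈ QQ := ⟨q, rfl⟩

theorem mem_QB {x : ℂ} : x ∈ QB ↔ IsAlgebraic ℚ x := by
  unfold QB
  exact mem_algebraicClosure_iff

theorem QQ_alg : ∀ x ∈ QQ, IsAlgebraic ℚ x := by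
  rintro x ⟨q, rfl⟩
  exact isAlgebraic_algebraMap q

theorem Sp_mem (F : Subfield ℂ) (n : ℕ) (x y : Fin n ⊕ Fin n) : Sp n x y ∈ F := by
  unfold Sp
  rcases x with x | x <;> rcases y with y | y
  · simp only [fromBlocks_apply₁₁, Matrix.zero_apply]
    exact F.zero_mem
  · simp only [fromBlocks_apply₁₂, Matrix.one_apply]
    split_ifs
    · exact F.one_mem
    · exact F.zero_mem
  · simp only [fromBlocks_apply₂₁, Matrix.neg_apply, Matrix.one_apply]
    split_ifs
    · exact F.neg_mem F.one_mem
    · exact F.neg_mem F.zero_mem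
  · simp only [fromBlocks_apply₂₂, Matrix.zero_apply]
    exact F.zero_mem

theorem JB_mem (F : Subfield ℂ) (x y : Bas g) : JB g x y ∈ F := by
  unfold JB
  rw [blockDiagonal'_apply]
  split_ifs
  · exact Sp_mem F _ _ _
  · exact F.zero_mem

theorem Periods.inv_mul {n : ℕ} (W : Periods n) :
    (-(W.lam⁻¹) • (Sp n * W.Pᵀ * Sp n)) * W.P = 1 ∧
      W.P * (-(W.lam⁻¹) • (Sp n * W.Pᵀ * Sp n)) = 1 := by
  have h1 : W.P * (-(W.lam⁻¹) • (Sp n * W.Pᵀ * Sp n)) = 1 := by
    rw [Matrix.mul_smul]
    have h2 : W.P * (Sp n * W.Pᵀ * Sp n) = -(W.lam • (1 : Matrix _ _ ℂ)) := by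
      rw [← Matrix.mul_assoc, ← Matrix.mul_assoc, W.riemann, Matrix.smul_mul, Sp_sq, smul_neg]
    rw [h2, neg_smul, smul_neg, neg_neg, smul_smul, inv_mul_cancel₀ W.lam_ne, one_smul]
  exact ⟨mul_eq_one_comm.1 h1, h1⟩

/-- The data attached to a family. -/
noncomputable def famData : Data (Sigma.fst : Bas g → ι) (fun _ => 1) QQ QB where
  E := perMat V
  E' := blockDiagonal' fun i => (-((V i).lam⁻¹) • (Sp (g i) * (V i).Pᵀ * Sp (g i)))
  A := JB g
  Ai := -JB g
  A' := JB g
  lam := fun i => (V i).lam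
  bE := blk_bd _
  EE' := by
    unfold perMat
    rw [← blockDiagonal'_mul]
    simp only [(Periods.inv_mul (V _)).2]
    exact blockDiagonal'_one
  E'E := by
    unfold perMat
    rw [← blockDiagonal'_mul]
    simp only [(Periods.inv_mul (V _)).1]
    exact blockDiagonal'_one
  bA := blk_bd _
  AAi := by rw [Matrix.mul_neg, JB_sq, neg_neg]
  AiA := by rw [Matrix.neg_mul, JB_sq, neg_neg]
  symA := fun x y => by
    have h1 := congrFun (congrFun (JB_transpose (g := g)) x) y
    rw [Matrix.transpose_apply, Matrix.neg_apply] at h1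
    rw [h1]
    simp
  lam_ne := fun i => (V i).lam_ne
  memA := JB_mem _
  memA' := JB_mem _
  rel := by
    unfold perMat JB
    rw [blockDiagonal'_transpose, ← blockDiagonal'_mul, ← blockDiagonal'_mul]
    ext x y
    unfold dg
    rw [diagonal_mul]
    obtain ⟨i, x⟩ := x
    obtain ⟨j, y⟩ := y
    by_cases h : i = j
    · subst h
      rw [blockDiagonal'_apply_eq, blockDiagonal'_apply_eq, (V i).riemann]
      rfl
    · rw [blockDiagonal'_apply_ne _ _ _ h, blockDiagonal'_apply_ne _ _ _ h, mul_zero]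

theorem sigma_sum {M : Type*} [AddCommMonoid M] (f : Bas g → Bas g → M)
    (h : ∀ x y : Bas g, x.1 ≠ y.1 → f x y = 0) :
    ∑ x, ∑ y, f x y = ∑ i, ∑ x, ∑ y, f ⟨i, x⟩ ⟨i, y⟩ := by
  rw [Fintype.sum_sigma]
  refine Finset.sum_congr rfl fun i _ => Finset.sum_congr rfl fun x _ => ?_
  rw [Fintype.sum_sigma, Finset.sum_eq_single i]
  · intro j _ hj
    exact Finset.sum_eq_zero fun y _ => h _ _ (Ne.symm hj)
  · intro h
    exact absurd (Finset.mem_univ _) h

/-- The condition for the family. -/
theorem fam_noQuad (hV : NoQuadraticRelation V) : (famData V).NoQuad := by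
  intro b C hb hbF hC hCK hsum
  -- the rational coefficients
  have hb1 : ∀ x y, ∃ q : ℚ, (q : ℂ) = b x y := by
    intro x y
    obtain ⟨q, hq⟩ := hbF x y
    exact ⟨q, hq⟩
  choose q hq using hb1
  have hcb : ∀ i, (Matrix.of fun x y => C ⟨i, x⟩ ⟨i, y⟩ :
      Matrix (Fin (g i) ⊕ Fin (g i)) (Fin (g i) ⊕ Fin (g i)) ℂ)ᵀ =
      Matrix.of fun x y => C ⟨i, x⟩ ⟨i, y⟩ := by
    intro i
    ext x y
    rw [Matrix.transpose_apply, Matrix.of_apply, Matrix.of_apply, hC.2 ⟨i, x⟩ ⟨i, y⟩]
    simp
  have hCbd : C = blockDiagonal' fun i => (Matrix.of fun x y => C ⟨i, x⟩ ⟨i, y⟩ :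
      Matrix (Fin (g i) ⊕ Fin (g i)) (Fin (g i) ⊕ Fin (g i)) ℂ) := by
    ext x y
    obtain ⟨i, x⟩ := x
    obtain ⟨j, y⟩ := y
    by_cases h : i = j
    · subst h
      rw [blockDiagonal'_apply_eq, Matrix.of_apply]
    · rw [blockDiagonal'_apply_ne _ _ _ h, hC.1 _ _ h]
  have h4 : ((perMat V)ᵀ * C * perMat V : Matrix (Bas g) (Bas g) ℂ) = blockDiagonal' fun i =>
      (V i).Pᵀ * (Matrix.of fun x y => C ⟨i, x⟩ ⟨i, y⟩ :
      Matrix (Fin (g i) ⊕ Fin (g i)) (Fin (g i) ⊕ Fin (g i)) ℂ) * (V i).P := by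
    conv_lhs => rw [hCbd]
    unfold perMat
    rw [blockDiagonal'_transpose, ← blockDiagonal'_mul, ← blockDiagonal'_mul]
  have h1 := hV (fun i => Matrix.of fun x y => q ⟨i, x⟩ ⟨i, y⟩)
    (fun i => Matrix.of fun x y => C ⟨i, x⟩ ⟨i, y⟩) (fun i => by
      ext x y
      rw [Matrix.transpose_apply, Matrix.of_apply, Matrix.of_apply]
      have h2 := hb.2 ⟨i, x⟩ ⟨i, y⟩
      rw [Units.val_one, one_smul, ← hq, ← hq] at h2
      exact_mod_cast h2) hcb (fun i z w => mem_QB.1 (hCK _ _)) (by
      rw [← hsum, sigma_sum _ (fun x y h => by rw [hb.1 x y h, zero_mul])]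
      refine Finset.sum_congr rfl fun i _ => ?_
      rw [Finset.mul_sum]
      refine Finset.sum_congr rfl fun x _ => ?_
      rw [Finset.mul_sum]
      refine Finset.sum_congr rfl fun y _ => ?_
      have h3 : (famData V).tr C ⟨i, x⟩ ⟨i, y⟩ = (V i).lam⁻¹ *
          ((V i).Pᵀ * (Matrix.of fun x y => C ⟨i, x⟩ ⟨i, y⟩) * (V i).P) x y := by
        unfold Data.tr dg
        rw [diagonal_mul]
        change (V i).lam⁻¹ * ((perMat V)ᵀ * C * perMat V : Matrix (Bas g) (Bas g) ℂ)
          ⟨i, x⟩ ⟨i, y⟩ = _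
        rw [h4, blockDiagonal'_apply_eq]
      rw [h3, Matrix.of_apply, hq]
      ring)
  intro i
  rcases h1 i with h2 | h2
  · left
    rintro ⟨j, x⟩ ⟨k, y⟩ hj
    change j = i at hj
    subst hj
    by_cases hjk : j = k
    · subst hjk
      have h3 := congrFun (congrFun h2 x) y
      rw [Matrix.of_apply, Matrix.zero_apply] at h3
      rw [← hq, h3, Rat.cast_zero]
    · exact hb.1 _ _ hjk
  · right
    rintro ⟨j, x⟩ ⟨k, y⟩ hj
    change j = i at hj
    subst hj
    by_cases hjk : j = k
    · subst hjk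
      have h3 := congrFun (congrFun h2 x) y
      rw [Matrix.of_apply, Matrix.zero_apply] at h3
      exact h3
    · exact hC.1 _ _ hjk

/-- For every block some ratio of periods is transcendental. -/
theorem fam_trans (hg : ∀ i, 0 < g i) (hV : NoQuadraticRelation V) : (famData V).Trans := by
  intro i
  by_contra hcon
  push Not at hcon
  -- a period which is not zero
  have hr : (V i).P * (-((V i).lam⁻¹) • (Sp (g i) * (V i).Pᵀ * Sp (g i))) = 1 :=
    (Periods.inv_mul (V i)).2
  obtain ⟨a⟩ : Nonempty (Fin (g i)) := ⟨⟨0, hg i⟩⟩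
  obtain ⟨w, hw⟩ : ∃ w, (V i).P (Sum.inl a) w ≠ 0 := by
    by_contra h
    push Not at h
    have h1 := congrFun (congrFun hr (Sum.inl a)) (Sum.inl a)
    rw [Matrix.mul_apply, Matrix.one_apply_eq, Finset.sum_eq_zero (fun w _ => by
      rw [h w, zero_mul])] at h1
    exact zero_ne_one h1
  have hE : ∀ x y, (famData V).E ⟨i, x⟩ ⟨i, y⟩ = (V i).P x y := by
    intro x y
    change perMat V _ _ = _
    unfold perMat
    rw [blockDiagonal'_apply_eq]
  have halg : ∀ x y, IsAlgebraic ℚ ((V i).P x y / (V i).P (Sum.inl a) w) := by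
    intro x y
    have h1 := hcon ⟨i, x⟩ ⟨i, y⟩ ⟨i, Sum.inl a⟩ ⟨i, w⟩ rfl rfl (by rw [hE]; exact hw)
    rwa [hE, hE] at h1
  -- the relation
  obtain ⟨r, hr⟩ : ∃ r : Fin (g i) ⊕ Fin (g i) → ℂ,
      r = fun z => (V i).P z w / (V i).P (Sum.inl a) w := ⟨_, rfl⟩
  have hr1 : r (Sum.inl a) = 1 := by
    rw [hr]
    exact div_self hw
  obtain ⟨c, hc⟩ : ∃ c : Fin (g i) ⊕ Fin (g i) → ℂ,
      c = Pi.single (Sum.inr a) 1 - r (Sum.inr a) • Pi.single (Sum.inl a) 1 := ⟨_, rfl⟩
  have hrc : r ⬝ᵥ c = 0 := by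
    rw [hc, dotProduct_sub, dotProduct_smul, dotProduct_single, dotProduct_single, hr1, mul_one,
      mul_one, smul_eq_mul, mul_one, sub_self]
  have hcalg : ∀ z, IsAlgebraic ℚ (c z) := by
    intro z
    have h1 : IsAlgebraic ℚ (r (Sum.inr a)) := by
      rw [hr]
      exact halg _ _
    rw [hc, Pi.sub_apply, Pi.smul_apply, smul_eq_mul]
    refine IsAlgebraic.sub ?_ (IsAlgebraic.mul h1 ?_)
    · rw [Pi.single_apply]
      split_ifs
      · exact isAlgebraic_one
      · exact isAlgebraic_zero
    · rw [Pi.single_apply]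
      split_ifs
      · exact isAlgebraic_one
      · exact isAlgebraic_zero
  have hc1 : c (Sum.inr a) = 1 := by
    rw [hc]
    simp
  have h1 := hV (Function.update 0 i (Matrix.single w w 1)) (Function.update 0 i (vecMulVec c c))
    (fun j => by
      by_cases h : j = i
      · subst h
        rw [Function.update_self, Matrix.transpose_single]
      · rw [Function.update_of_ne h]
        rfl)
    (fun j => by
      by_cases h : j = i
      · subst h
        rw [Function.update_self, transpose_vecMulVec]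
      · rw [Function.update_of_ne h]
        rfl)
    (fun j z z' => by
      by_cases h : j = i
      · subst h
        rw [Function.update_self, vecMulVec_apply]
        exact (hcalg z).mul (hcalg z')
      · rw [Function.update_of_ne h]
        exact isAlgebraic_zero)
    (by
      refine Finset.sum_eq_zero fun j _ => ?_
      by_cases h : j = i
      · subst h
        rw [Function.update_self, Function.update_self]
        rw [Finset.sum_eq_single w, Finset.sum_eq_single w]
        · rw [Matrix.single_apply_same, Rat.cast_one, one_mul]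
          have h2 : ((V j).Pᵀ * vecMulVec c c * (V j).P) w w = 0 := by
            rw [Matrix.mul_vecMulVec, Matrix.vecMulVec_mul, vecMulVec_apply]
            have h3 : ((V j).Pᵀ *ᵥ c) w = (V j).P (Sum.inl a) w * (r ⬝ᵥ c) := by
              rw [mulVec, dotProduct, dotProduct, Finset.mul_sum]
              refine Finset.sum_congr rfl fun z _ => ?_
              rw [hr, Matrix.transpose_apply]
              field_simp
            rw [h3, hrc, mul_zero, zero_mul]
          rw [h2, mul_zero]
        · intro y _ hy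
          rw [Matrix.single_apply_of_col_ne _ _ (Ne.symm hy), Rat.cast_zero, zero_mul]
        · intro h
          exact absurd (Finset.mem_univ _) h
        · intro x _ hx
          refine Finset.sum_eq_zero fun y _ => ?_
          rw [Matrix.single_apply_of_row_ne (Ne.symm hx), Rat.cast_zero, zero_mul]
        · intro h
          exact absurd (Finset.mem_univ _) h
      · rw [Function.update_of_ne h]
        simp) i
  rw [Function.update_self, Function.update_self] at h1
  rcases h1 with h1 | h1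
  · have h2 := congrFun (congrFun h1 w) w
    rw [Matrix.single_apply_same, Matrix.zero_apply] at h2
    exact one_ne_zero h2
  · have h2 := congrFun (congrFun h1 (Sum.inr a)) (Sum.inr a)
    rw [vecMulVec_apply, hc1, Matrix.zero_apply, mul_one] at h2
    exact one_ne_zero h2

end Pool.Agent.TH119.DR
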