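import Mathlib
import Pool.Agent.TH119.DR.Fam

/-!
# De Rham-Betti classes on products of varieties without quadratic period relations
-/

set_option linter.unusedSectionVars false

namespace Pool.Agent.TH119.DR

open Finset Matrix Pool.Agent.W437.HK Pool.Agent.H204R3.SP Pool.Agent.H204R3.GP

variable {ι : Type} [Fintype ι] [DecidableEq ι] {g : ι → ℕ} (V : ∀ i, Periods (g i))

/-- The dual basis vector. -/
def iv (x : Bas g) : Bas g := ⟨x.1, x.2.swap⟩

/-- The sign. -/
def sg (x : Bas g) : ℚ := Sum.elim (fun _ => 1) (fun _ => -1) x.2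

theorem iv_iv (x : Bas g) : iv (iv x) = x := by
  unfold iv
  rw [Sum.swap_swap]

theorem iv_fst (x : Bas g) : (iv x).1 = x.1 := rfl

theorem sg_iv (x : Bas g) : sg (iv x) = -sg x := by
  obtain ⟨i, x | x⟩ := x <;> simp [sg, iv]

theorem sg_ne (x : Bas g) : sg x ≠ 0 := by
  obtain ⟨i, x | x⟩ := x <;> simp [sg]

theorem JJ_def (x y : Bas g) : JJ iv sg x y = if y = iv x then sg x else 0 := rfl

theorem JB_eq (x y : Bas g) : JB g x y = ((JJ iv sg x y : ℚ) : ℂ) := by
  obtain ⟨i, x⟩ := x
  obtain ⟨j, y⟩ := y
  rw [JJ_def]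
  unfold JB iv sg
  by_cases h : i = j
  · subst h
    rw [blockDiagonal'_apply_eq]
    unfold Sp
    rcases x with x | x <;> rcases y with y | y
    · simp
    · simp only [fromBlocks_apply₁₂, Matrix.one_apply, Sum.swap_inl, Sigma.mk.injEq, heq_eq_eq,
        Sum.inr.injEq, true_and, Sum.elim_inl, eq_comm (a := y)]
      split_ifs <;> simp
    · simp only [fromBlocks_apply₂₁, Matrix.neg_apply, Matrix.one_apply, Sum.swap_inr,
        Sigma.mk.injEq, heq_eq_eq, Sum.inl.injEq, true_and, Sum.elim_inr, eq_comm (a := y)]
      split_ifs <;> simp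
    · simp
  · rw [blockDiagonal'_apply_ne _ _ _ h, if_neg, Rat.cast_zero]
    intro h2
    exact h (congrArg Sigma.fst h2).symm

theorem pol_eq (i : ι) (x y : Bas g) : pol i x y = if x.1 = i then JJ iv sg x y else 0 := by
  rw [JJ_def]
  unfold pol iv sg
  by_cases h : x.1 = i
  · rw [if_pos h]
    simp [h]
  · rw [if_neg h, if_neg]
    intro h2
    exact h h2.1

variable {V} {κ : Type} [Fintype κ] [DecidableEq κ] {t : (κ → Bas g) → ℚ}

/-- The bracket relations for the coefficients of a de Rham-Betti class. -/
theorem bracket (hg : ∀ i, 0 < g i) (hV : NoQuadraticRelation V) (ht : IsDeRhamBetti V t)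
    (b c : Bas g) (hbc : b.1 = c.1) (I : κ → Bas g) :
    ∑ l, (JJ iv sg b (I l) * t (Function.update I l c) +
      JJ iv sg c (I l) * t (Function.update I l b)) = 0 := by
  obtain ⟨μ, t', ht', hμ⟩ := ht
  obtain ⟨tC, htC⟩ : ∃ tC : (κ → Bas g) → ℂ, tC = fun I => ((t I : ℚ) : ℂ) := ⟨_, rfl⟩
  have hkill : ∀ w : Bas g → ℂ, (∀ x, x.1 ≠ b.1 → w x = 0) →
      act (vecMulVec w (JB g *ᵥ w)) tC = 0 := by
    intro w hw
    have hs : ∀ x : Bas g, x.1 ≠ b.1 → (JB g *ᵥ w) x = 0 := by
      intro x hx
      rw [mulVec, dotProduct]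
      refine Finset.sum_eq_zero fun y _ => ?_
      by_cases hy : y.1 = b.1
      · have h0 : JB g x y = 0 := blk_bd _ x y (by rw [hy]; exact hx)
        rw [h0, zero_mul]
      · rw [hw y hy, mul_zero]
    have h1 := (famData V).kill QQ_alg (fun x hx => mem_QB.1 hx) (fam_noQuad V hV)
      (fam_trans V hg hV) (t := tC) (t' := t') (μ := μ) (fun I => by
        rw [htC]
        exact mem_QQ _) (fun I => mem_QB.2 (ht' I)) (by
        rw [htC]
        funext I
        exact hμ I) (i := b.1) rfl (s := JB g *ᵥ w) hs
    change act (JB g * vecMulVec (JB g *ᵥ w) (JB g *ᵥ w)) tC = 0 at h1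
    rw [Matrix.mul_vecMulVec, mulVec_mulVec, JB_sq, neg_mulVec, one_mulVec, neg_vecMulVec,
      act_neg_left, neg_eq_zero] at h1
    exact h1
  have hb : ∀ x : Bas g, x.1 ≠ b.1 → (Pi.single b 1 : Bas g → ℂ) x = 0 := by
    intro x hx
    rw [Pi.single_eq_of_ne]
    rintro rfl
    exact hx rfl
  have hc : ∀ x : Bas g, x.1 ≠ b.1 → (Pi.single c 1 : Bas g → ℂ) x = 0 := by
    intro x hx
    rw [Pi.single_eq_of_ne]
    rintro rfl
    exact hx hbc.symm
  have h1 : act (vecMulVec (Pi.single b 1) (JB g *ᵥ Pi.single c 1) +
      vecMulVec (Pi.single c 1) (JB g *ᵥ Pi.single b 1)) tC = 0 := by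
    have h2 : vecMulVec (Pi.single b 1) (JB g *ᵥ Pi.single c 1) +
        vecMulVec (Pi.single c 1) (JB g *ᵥ Pi.single b 1) =
        vecMulVec (Pi.single b 1 + Pi.single c 1) (JB g *ᵥ (Pi.single b 1 + Pi.single c 1)) -
          vecMulVec (Pi.single b 1) (JB g *ᵥ Pi.single b 1) -
          vecMulVec (Pi.single c 1) (JB g *ᵥ Pi.single c 1) := by
      rw [mulVec_add, vecMulVec_add, add_vecMulVec, add_vecMulVec]
      abel
    rw [h2, act_sub_left, act_sub_left, hkill _ (fun x hx => by
      rw [Pi.add_apply, hb x hx, hc x hx, add_zero]), hkill _ hb, hkill _ hc, sub_zero, sub_zero]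
  have h2 := congrFun h1 I
  rw [Pi.zero_apply] at h2
  have hJ : ∀ x y : Bas g, JB g x y = -JB g y x := by
    intro x y
    have h3 := congrFun (congrFun (JB_transpose (g := g)) y) x
    rw [Matrix.transpose_apply, Matrix.neg_apply] at h3
    exact h3
  have h3 : act (vecMulVec (Pi.single b 1) (JB g *ᵥ Pi.single c 1) +
      vecMulVec (Pi.single c 1) (JB g *ᵥ Pi.single b 1)) tC I =
      -((∑ l, (JJ iv sg b (I l) * t (Function.update I l c) +
      JJ iv sg c (I l) * t (Function.update I l b)) : ℚ) : ℂ) := by
    unfold act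
    rw [Rat.cast_sum, ← Finset.sum_neg_distrib]
    refine Finset.sum_congr rfl fun l _ => ?_
    have h4 : ∀ j, (vecMulVec (Pi.single b 1) (JB g *ᵥ Pi.single c 1) +
      vecMulVec (Pi.single c 1) (JB g *ᵥ Pi.single b 1) : Matrix (Bas g) (Bas g) ℂ) j (I l) *
        tC (Function.update I l j) =
        (Pi.single b 1 : Bas g → ℂ) j * (JB g (I l) c * tC (Function.update I l j)) +
        (Pi.single c 1 : Bas g → ℂ) j * (JB g (I l) b * tC (Function.update I l j)) := by
      intro j
      rw [Matrix.add_apply, vecMulVec_apply, vecMulVec_apply, mulVec_single_one,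
        mulVec_single_one, Matrix.col_apply, Matrix.col_apply]
      ring
    rw [Finset.sum_congr rfl (fun j _ => h4 j), Finset.sum_add_distrib,
      Finset.sum_eq_single b, Finset.sum_eq_single c, Pi.single_eq_same, Pi.single_eq_same]
    · rw [hJ _ c, hJ _ b, JB_eq, JB_eq, htC]
      push_cast
      ring
    · intro j _ hj
      rw [Pi.single_eq_of_ne hj, zero_mul]
    · intro h
      exact absurd (Finset.mem_univ _) h
    · intro j _ hj
      rw [Pi.single_eq_of_ne hj, zero_mul]
    · intro h
      exact absurd (Finset.mem_univ _) h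
  rw [h3, neg_eq_zero] at h2
  exact_mod_cast h2

/-- The number of factors is even. -/
theorem even_of_ne (hbr : ∀ b c : Bas g, b.1 = c.1 → ∀ I : κ → Bas g,
    ∑ l, (JJ iv sg b (I l) * t (Function.update I l c) +
      JJ iv sg c (I l) * t (Function.update I l b)) = 0) {I : κ → Bas g} (hI : t I ≠ 0) :
    Even (Fintype.card κ) := by
  classical
  -- the numbers of the elements
  have h1 : ∀ b : Bas g, (Finset.univ.filter fun l => I l = iv b).card =
      (Finset.univ.filter fun l => I l = b).card := by
    intro b
    have h2 := hbr b (iv b) rfl I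
    have h3 : ∀ l, JJ iv sg b (I l) * t (Function.update I l (iv b)) +
        JJ iv sg (iv b) (I l) * t (Function.update I l b) =
        ((if I l = iv b then 1 else 0) - (if I l = b then 1 else 0)) * (sg b * t I) := by
      intro l
      rw [JJ_def, JJ_def, iv_iv, sg_iv]
      by_cases h4 : I l = iv b
      · have h5 : I l ≠ b := by
          rw [h4]
          obtain ⟨i, x | x⟩ := b <;> simp [iv]
        rw [if_pos h4, if_neg h5, if_pos h4, if_neg h5]
        have h6 : Function.update I l (iv b) = I := by
          rw [← h4, Function.update_eq_self]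
        rw [h6]
        ring
      · rw [if_neg h4, if_neg h4]
        by_cases h5 : I l = b
        · rw [if_pos h5, if_pos h5]
          have h6 : Function.update I l b = I := by
            rw [← h5, Function.update_eq_self]
          rw [h6]
          ring
        · rw [if_neg h5, if_neg h5]
          ring
    rw [Finset.sum_congr rfl (fun l _ => h3 l), ← Finset.sum_mul, Finset.sum_sub_distrib,
      Finset.sum_boole, Finset.sum_boole] at h2
    have h4 := (mul_eq_zero.1 h2).resolve_right (mul_ne_zero (sg_ne b) hI)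
    rw [sub_eq_zero] at h4
    exact_mod_cast h4
  have h2 : (Finset.univ.filter fun l => (I l).2.isLeft = true).card =
      (Finset.univ.filter fun l => ¬ (I l).2.isLeft = true).card := by
    have h3 : (Finset.univ.filter fun l => (I l).2.isLeft = true).card =
        ∑ b ∈ Finset.univ.filter (fun b : Bas g => b.2.isLeft = true),
          (Finset.univ.filter fun l => I l = b).card := by
      rw [Finset.card_eq_sum_card_fiberwise (f := I)
        (t := Finset.univ.filter (fun b : Bas g => b.2.isLeft = true))]
      · refine Finset.sum_congr rfl fun b hb => ?_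
        congr 1
        ext l
        simp only [Finset.mem_filter, Finset.mem_univ, true_and] at hb ⊢
        constructor
        · exact fun h => h.2
        · rintro rfl
          exact ⟨hb, rfl⟩
      · intro l hl
        simpa using hl
    have h4 : (Finset.univ.filter fun l => ¬ (I l).2.isLeft = true).card =
        ∑ b ∈ Finset.univ.filter (fun b : Bas g => b.2.isLeft = true),
          (Finset.univ.filter fun l => I l = iv b).card := by
      rw [Finset.card_eq_sum_card_fiberwise (f := fun l => iv (I l))
        (t := Finset.univ.filter (fun b : Bas g => b.2.isLeft = true))]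
      · refine Finset.sum_congr rfl fun b hb => ?_
        congr 1
        ext l
        simp only [Finset.mem_filter, Finset.mem_univ, true_and] at hb ⊢
        constructor
        · rintro ⟨_, rfl⟩
          rw [iv_iv]
        · intro h
          rw [h]
          refine ⟨?_, iv_iv b⟩
          obtain ⟨i, x | x⟩ := b
          · simp [iv]
          · simp at hb
      · intro l hl
        have hl' : ¬ (I l).2.isLeft = true := by simpa using hl
        have : (iv (I l)).2.isLeft = true := by
          generalize I l = b at hl'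
          obtain ⟨i, x | x⟩ := b
          · simp at hl'
          · simp [iv]
        simpa using this
    rw [h3, h4]
    exact Finset.sum_congr rfl fun b _ => (h1 b).symm
  have h3 := Finset.card_filter_add_card_filter_not (s := (Finset.univ : Finset κ))
    (fun l => (I l).2.isLeft = true)
  rw [Finset.card_univ] at h3
  exact ⟨_, by rw [← h3, ← h2]⟩

/-- **Main theorem** for families. -/
theorem fam_main (hg : ∀ i, 0 < g i) (hV : NoQuadraticRelation V) (ht : IsDeRhamBetti V t) :
    t ∈ PolSpan g κ := by
  classical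
  by_cases h0 : t = 0
  · rw [h0]
    exact Submodule.zero_mem _
  obtain ⟨I, hI⟩ := Function.ne_iff.1 h0
  obtain ⟨m, hm⟩ := even_of_ne (bracket hg hV ht) hI
  have h1 : t ∈ MatG (Sigma.fst : Bas g → ι) iv sg κ m :=
    mem_MatG iv_iv sg_iv sg_ne iv_fst (by rw [hm, two_mul]) (bracket hg hV ht)
  refine Submodule.span_mono ?_ h1
  rintro F ⟨e, c, rfl⟩
  refine ⟨m, e, c, ?_⟩
  funext I
  unfold matG
  refine Finset.prod_congr rfl fun s _ => ?_
  rw [pol_eq]

end Pool.Agent.TH119.DR
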